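import Mathlib

/-!
The online transportation problem in the weak adversary model.
-/

namespace Pool.Agent.Helper84.Transport

open scoped ENNReal

/-- A deterministic online algorithm for `m` server sites with `c i` servers at the `i`-th site, in
the weak adversary model with adversary capacities `a`.  For a metric space `N`, sites `s` in `N`
and requests `r 0, r 1, …` in `N`, the `j`-th request is assigned to the site
`assign N s j (r 0, …, r j)`, which only depends on the requests revealed so far.  No site is ever
used more often than it has servers, as long as at most `∑ i, a i` requests are revealed. -/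
structure OnlineAlgorithm (m : ℕ) (a c : Fin m → ℕ) where
  assign : ∀ (N : Type) [MetricSpace N], (Fin m → N) → ∀ j : ℕ, (Fin (j + 1) → N) → Fin m
  feasible : ∀ (N : Type) [MetricSpace N] (s : Fin m → N) (r : ℕ → N) (n : ℕ),
    n ≤ ∑ i, a i → ∀ i, {j | j < n ∧ assign N s j (fun k => r k) = i}.ncard ≤ c i

/-- The cost of the online algorithm on the requests `r 0, …, r (n - 1)`. -/
noncomputable def OnlineAlgorithm.cost {m : ℕ} {a c : Fin m → ℕ} (A : OnlineAlgorithm m a c)
    {N : Type} [MetricSpace N] (s : Fin m → N) (r : ℕ → N) (n : ℕ) : ℝ≥0∞ :=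
  ∑ j ∈ Finset.range n, edist (s (A.assign N s j (fun k => r k))) (r j)

/-- The minimum cost of an offline assignment `f` of the requests `r 0, …, r (n - 1)` that uses
at most `a i` servers at the `i`-th site. -/
noncomputable def opt {m : ℕ} (a : Fin m → ℕ) {N : Type} [MetricSpace N] (s : Fin m → N)
    (r : ℕ → N) (n : ℕ) : ℝ≥0∞ :=
  ⨅ (f : ℕ → Fin m) (_ : ∀ i, {j | j < n ∧ f j = i}.ncard ≤ a i),
    ∑ j ∈ Finset.range n, edist (s (f j)) (r j)

/-- The optimal weak competitive ratio `R*(a, c)`: the infimum over all deterministic online
algorithms `A` of the supremum of `A(I) / OPT_a(I)` over all instances `I` (a metric space,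
distinct server sites, and at most `∑ i, a i` requests). -/
noncomputable def Rstar {m : ℕ} (a c : Fin m → ℕ) : ℝ≥0∞ :=
  ⨅ A : OnlineAlgorithm m a c, ⨆ (N : Type) (_ : MetricSpace N) (s : Fin m → N)
    (_ : Function.Injective s) (r : ℕ → N) (n : ℕ) (_ : n ≤ ∑ i, a i),
      A.cost s r n / opt a s r n

end Pool.Agent.Helper84.Transport
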