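import Pool.Agent.Helper84.TransportDefs

/-!
Lower bound for the weak competitive ratio on weighted star metrics.
-/

namespace Pool.Agent.Helper84.Transport

open scoped ENNReal
open Finset

/-- The star with centre `none` and leaves `some i`, at distance `w i` from the centre. -/
noncomputable def starDist {m : ℕ} (w : Fin m → ℝ) (x y : Option (Fin m)) : ℝ :=
  open Classical in if x = y then 0 else x.elim 0 w + y.elim 0 w

/-- The star metric. -/
noncomputable def starMetric {m : ℕ} (w : Fin m → ℝ) (hw : ∀ i, 0 < w i) :
    MetricSpace (Option (Fin m)) where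
  dist := starDist w
  dist_self x := by simp [starDist]
  dist_comm x y := by
    unfold starDist
    by_cases h : x = y
    · simp [h]
    · rw [if_neg h, if_neg (fun h' => h h'.symm), add_comm]
  dist_triangle x y z := by
    have hW : ∀ x : Option (Fin m), 0 ≤ x.elim 0 w := by
      intro x
      cases x with
      | none => simp
      | some i => simpa using (hw i).le
    unfold starDist
    have hx := hW x
    have hy := hW y
    have hz := hW z
    by_cases h1 : x = z
    · rw [if_pos h1]
      split_ifs <;> linarith
    · rw [if_neg h1]
      by_cases h2 : x = y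
      · subst h2
        rw [if_neg h1]
        simp
      · rw [if_neg h2]
        by_cases h3 : y = z
        · subst h3
          simp
        · rw [if_neg h3]
          linarith
  eq_of_dist_eq_zero := by
    intro x y h
    change starDist w x y = 0 at h
    unfold starDist at h
    by_contra hne
    rw [if_neg hne] at h
    cases x with
    | none =>
      cases y with
      | none => exact hne rfl
      | some j =>
        simp at h
        linarith [hw j]
    | some i =>
      cases y with
      | none =>
        simp at h
        linarith [hw i]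
      | some j =>
        simp at h
        linarith [hw i, hw j]

section game

variable {m : ℕ} {a c : Fin m → ℕ} (A : OnlineAlgorithm m a c) (w : Fin m → ℝ)
  (hw : ∀ i, 0 < w i)

/-- The site chosen by the algorithm for the `j`-th request on the star. -/
noncomputable def site (r : ℕ → Option (Fin m)) (j : ℕ) : Fin m :=
  letI := starMetric w hw
  A.assign (Option (Fin m)) some j (fun k => r k)

/-- The number of requests among the first `n` assigned to site `i`. -/
noncomputable def load (r : ℕ → Option (Fin m)) (n : ℕ) (i : Fin m) : ℕ :=
  ((range n).filter fun j => site A w hw r j = i).card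

/-- The cost of the first `n` requests. -/
noncomputable def rcost (r : ℕ → Option (Fin m)) (n : ℕ) : ℝ :=
  ∑ j ∈ range n, starDist w (some (site A w hw r j)) (r j)

theorem site_congr {r r' : ℕ → Option (Fin m)} {j : ℕ} (h : ∀ k ≤ j, r k = r' k) :
    site A w hw r j = site A w hw r' j := by
  unfold site
  congr 1
  funext k
  exact h k (by omega)

theorem load_congr {r r' : ℕ → Option (Fin m)} {n : ℕ} (h : ∀ k < n, r k = r' k) (i : Fin m) :
    load A w hw r n i = load A w hw r' n i := by
  unfold load
  congr 1
  refine Finset.filter_congr fun j hj => ?_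
  rw [site_congr A w hw (r := r) (r' := r') fun k hk => h k (by
    have := Finset.mem_range.1 hj
    omega)]

theorem rcost_congr {r r' : ℕ → Option (Fin m)} {n : ℕ} (h : ∀ k < n, r k = r' k) :
    rcost A w hw r n = rcost A w hw r' n := by
  unfold rcost
  refine Finset.sum_congr rfl fun j hj => ?_
  have hj' := Finset.mem_range.1 hj
  rw [site_congr A w hw (r := r) (r' := r') fun k hk => h k (by omega), h j hj']

theorem load_le (r : ℕ → Option (Fin m)) (n : ℕ) (hn : n ≤ ∑ i, a i) (i : Fin m) :
    load A w hw r n i ≤ c i := by
  let _ := starMetric w hw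
  have h := A.feasible (Option (Fin m)) some r n hn i
  have h2 : {j | j < n ∧ A.assign (Option (Fin m)) some j (fun k => r k) = i} =
      (((range n).filter fun j => site A w hw r j = i : Finset ℕ) : Set ℕ) := by
    ext j
    rw [Finset.mem_coe, Finset.mem_filter, mem_range]
    rfl
  rw [h2, Set.ncard_coe_finset] at h
  exact h

theorem sum_load (r : ℕ → Option (Fin m)) (n : ℕ) : ∑ i, load A w hw r n i = n := by
  unfold load
  have := Finset.card_eq_sum_card_fiberwise (f := fun j => site A w hw r j) (s := range n)
    (t := Finset.univ) (fun _ _ => by simp)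
  rw [card_range] at this
  exact this.symm

theorem starDist_nonneg (hw : ∀ i, 0 < w i) (x y : Option (Fin m)) : 0 ≤ starDist w x y := by
  let _ := starMetric w hw
  exact dist_nonneg (x := x) (y := y)

theorem load_mono (r : ℕ → Option (Fin m)) {n n' : ℕ} (h : n ≤ n') (i : Fin m) :
    load A w hw r n i ≤ load A w hw r n' i := by
  unfold load
  refine Finset.card_le_card (Finset.filter_subset_filter _ (Finset.range_mono h))

/-- The phase in which `a i` requests arrive at the site `i`: the cost is at least
`2 (load i - (c i - a i))`. -/
theorem phase_cost (hw1 : ∀ i, 1 ≤ w i) (r : ℕ → Option (Fin m)) (n : ℕ) (i : Fin m)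
    (hn : n + a i ≤ ∑ i, a i) (hr : ∀ k, n ≤ k → k < n + a i → r k = some i) :
    rcost A w hw r n + 2 * ((load A w hw r n i : ℝ) - ((c i : ℝ) - a i)) ≤
      rcost A w hw r (n + a i) := by
  have h1 : rcost A w hw r (n + a i) = rcost A w hw r n +
      ∑ j ∈ Ico n (n + a i), starDist w (some (site A w hw r j)) (r j) := by
    unfold rcost
    rw [Finset.sum_range_add_sum_Ico _ (Nat.le_add_right _ _)]
  have h2 : load A w hw r (n + a i) i = load A w hw r n i +
      ((Ico n (n + a i)).filter fun j => site A w hw r j = i).card := by
    unfold load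
    rw [← Finset.card_union_of_disjoint]
    · congr 1
      rw [← Finset.filter_union]
      congr 1
      ext j
      simp only [mem_range, mem_union, mem_Ico]
      omega
    · refine Finset.disjoint_filter_filter ?_
      rw [Finset.disjoint_left]
      intro j hj hj'
      rw [mem_range] at hj
      rw [mem_Ico] at hj'
      omega
  have h3 : load A w hw r (n + a i) i ≤ c i := load_le A w hw r _ hn i
  have h4 : ((Ico n (n + a i)).filter fun j => site A w hw r j = i).card +
      ((Ico n (n + a i)).filter fun j => ¬ site A w hw r j = i).card = a i := by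
    rw [Finset.card_filter_add_card_filter_not, Nat.card_Ico]
    omega
  have h5 : 2 * (((Ico n (n + a i)).filter fun j => ¬ site A w hw r j = i).card : ℝ) ≤
      ∑ j ∈ Ico n (n + a i), starDist w (some (site A w hw r j)) (r j) := by
    calc 2 * (((Ico n (n + a i)).filter fun j => ¬ site A w hw r j = i).card : ℝ)
        = ∑ j ∈ (Ico n (n + a i)).filter fun j => ¬ site A w hw r j = i, (2 : ℝ) := by
          rw [Finset.sum_const, nsmul_eq_mul, mul_comm]
      _ ≤ ∑ j ∈ (Ico n (n + a i)).filter fun j => ¬ site A w hw r j = i,
            starDist w (some (site A w hw r j)) (r j) := by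
          refine Finset.sum_le_sum fun j hj => ?_
          obtain ⟨hj1, hj2⟩ := Finset.mem_filter.1 hj
          rw [mem_Ico] at hj1
          rw [hr j hj1.1 hj1.2]
          unfold starDist
          rw [if_neg (fun h => hj2 (Option.some.inj h))]
          simp only [Option.elim_some]
          linarith [hw1 i, hw1 (site A w hw r j)]
      _ ≤ _ := Finset.sum_le_sum_of_subset_of_nonneg (Finset.filter_subset _ _)
          fun j _ _ => starDist_nonneg w hw _ _
  rw [h1]
  have h6 : (load A w hw r n i : ℝ) +
      ((Ico n (n + a i)).filter fun j => site A w hw r j = i).card ≤ c i := by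
    rw [h2] at h3
    exact_mod_cast h3
  have h7 : (((Ico n (n + a i)).filter fun j => site A w hw r j = i).card : ℝ) +
      ((Ico n (n + a i)).filter fun j => ¬ site A w hw r j = i).card = a i := by
    exact_mod_cast h4
  linarith

/-- The state of the adversary's game after `k` phases: the set `K` of filled sites has `k`
elements, and either the online cost is already large, or it is at least the partial sum. -/
theorem game (hw1 : ∀ i, 1 ≤ w i) (S : Finset (Fin m)) (T : ℕ) (hT : ∀ i ∈ S, T ≤ a i)
    (L : ℝ) (hL : ∀ i, i ∉ S → L ≤ w i) :
    ∀ k, k < S.card → ∃ (r : ℕ → Option (Fin m)) (K : Finset (Fin m)),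
      K ⊆ S ∧ K.card = k ∧
      (∀ j < T, r j = none) ∧
      (∃ g : ℕ → Fin m, (∀ j, T ≤ j → j < T + ∑ i ∈ K, a i → g j ∈ K ∧ r j = some (g j)) ∧
        ∀ i ∈ K, ((Ico T (T + ∑ i ∈ K, a i)).filter fun j => g j = i).card = a i) ∧
      (L ≤ rcost A w hw r (T + ∑ i ∈ K, a i) ∨
        T + 2 * ((T : ℝ) - ∑ i ∈ S, ((c i : ℝ) - a i)) *
          (∑ l ∈ range k, 1 / ((S.card : ℝ) - l)) ≤ rcost A w hw r (T + ∑ i ∈ K, a i)) := by
  classical
  intro k
  induction k with
  | zero =>
    intro hS0
    obtain ⟨i₀, -⟩ : S.Nonempty := Finset.card_pos.1 hS0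
    refine ⟨fun _ => none, ∅, by simp, by simp, by simp, ⟨fun _ => i₀, ?_⟩, ?_⟩
    · constructor
      · intro j h1 h2
        simp at h2
        omega
      · simp
    · right
      simp only [range_zero, sum_empty, mul_zero, add_zero]
      unfold rcost
      calc (T : ℝ) = ∑ j ∈ range T, (1 : ℝ) := by simp
        _ ≤ _ := by
          refine Finset.sum_le_sum fun j _ => ?_
          unfold starDist
          simp
          exact hw1 _
  | succ k ih =>
    intro hk
    obtain ⟨r, K, hKS, hKc, hr0, ⟨g, hg1, hg2⟩, hcost⟩ := ih (by omega)
    set n := T + ∑ i ∈ K, a i with hn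
    -- choose the site with the largest excess
    have hne : (S \ K).Nonempty := by
      rw [Finset.sdiff_nonempty]
      intro h
      have := Finset.card_le_card h
      omega
    obtain ⟨i, hi, hmax⟩ := Finset.exists_max_image (S \ K)
      (fun i => (load A w hw r n i : ℝ) - ((c i : ℝ) - a i)) hne
    obtain ⟨hiS, hiK⟩ := Finset.mem_sdiff.1 hi
    let r' : ℕ → Option (Fin m) := fun j => if j < n then r j else some i
    have hr' : ∀ j < n, r' j = r j := fun j hj => if_pos hj
    have hr'' : ∀ j, n ≤ j → r' j = some i := fun j hj => if_neg (by omega)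
    have hsumK : ∑ j ∈ insert i K, a j = ∑ j ∈ K, a j + a i := by
      rw [Finset.sum_insert hiK, add_comm]
    -- remaining site for OPT
    have hcap : n + a i ≤ ∑ j, a j := by
      have hcard : (insert i K).card < S.card := by
        rw [Finset.card_insert_of_notMem hiK]
        omega
      have hsub : insert i K ⊆ S := Finset.insert_subset hiS hKS
      obtain ⟨i', hi'S, hi'K⟩ : ∃ i' ∈ S, i' ∉ insert i K := by
        by_contra hcon
        push Not at hcon
        exact absurd (Finset.card_le_card hcon) (by omega)
      calc n + a i = T + ∑ j ∈ insert i K, a j := by rw [hsumK, hn]; ring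
        _ ≤ a i' + ∑ j ∈ insert i K, a j := by gcongr; exact hT i' hi'S
        _ = ∑ j ∈ insert i' (insert i K), a j := by rw [Finset.sum_insert hi'K]
        _ ≤ ∑ j, a j := Finset.sum_le_sum_of_subset (Finset.subset_univ _)
    refine ⟨r', insert i K, Finset.insert_subset hiS hKS, ?_, ?_, ⟨fun j => if j < n then g j else i,
      ?_, ?_⟩, ?_⟩
    · rw [Finset.card_insert_of_notMem hiK, hKc]
    · intro j hj
      rw [hr' j (by omega)]
      exact hr0 j hj
    · intro j hj1 hj2
      by_cases hjn : j < n
      · simp only [hjn, if_true]
        rw [hr' j hjn]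
        have := hg1 j hj1 hjn
        exact ⟨Finset.mem_insert_of_mem this.1, this.2⟩
      · simp only [hjn, if_false]
        exact ⟨Finset.mem_insert_self _ _, hr'' j (by omega)⟩
    · intro i₁ hi₁
      have hsplit : Ico T (T + ∑ j ∈ insert i K, a j) = Ico T n ∪ Ico n (n + a i) := by
        rw [hsumK]
        ext j
        simp only [mem_Ico, mem_union, hn]
        omega
      have hdisj : Disjoint (Ico T n) (Ico n (n + a i)) := by
        rw [Finset.disjoint_left]
        intro j hj hj'
        rw [mem_Ico] at hj hj'
        omega
      rw [hsplit, Finset.filter_union, Finset.card_union_of_disjoint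
        (Finset.disjoint_filter_filter hdisj)]
      have e1 : ((Ico T n).filter fun j => (if j < n then g j else i) = i₁) =
          (Ico T n).filter fun j => g j = i₁ := by
        refine Finset.filter_congr fun j hj => ?_
        rw [mem_Ico] at hj
        simp [hj.2]
      have e2 : ((Ico n (n + a i)).filter fun j => (if j < n then g j else i) = i₁) =
          (Ico n (n + a i)).filter fun j => i = i₁ := by
        refine Finset.filter_congr fun j hj => ?_
        rw [mem_Ico] at hj
        simp [not_lt.2 hj.1]
      rw [e1, e2]
      by_cases hii : i = i₁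
      · subst hii
        have e3 : ((Ico T n).filter fun j => g j = i) = ∅ := by
          rw [Finset.filter_eq_empty_iff]
          intro j hj hgj
          rw [mem_Ico] at hj
          exact hiK (hgj ▸ (hg1 j hj.1 hj.2).1)
        rw [e3]
        simp
      · have hi₁K : i₁ ∈ K := by
          rcases Finset.mem_insert.1 hi₁ with h | h
          · exact absurd h.symm hii
          · exact h
        simp only [hii, Finset.filter_false, Finset.card_empty, add_zero]
        exact hg2 i₁ hi₁K
    · -- cost
      have hload : ∀ l, load A w hw r' n l = load A w hw r n l := fun l =>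
        load_congr A w hw (fun j hj => hr' j hj) l
      have hrc : rcost A w hw r' n = rcost A w hw r n :=
        rcost_congr A w hw fun j hj => hr' j hj
      have hlen : T + ∑ j ∈ insert i K, a j = n + a i := by rw [hsumK, hn]; ring
      rw [hlen]
      have hmono : rcost A w hw r' n ≤ rcost A w hw r' (n + a i) := by
        unfold rcost
        exact Finset.sum_le_sum_of_subset_of_nonneg (Finset.range_mono (Nat.le_add_right _ _))
          fun j _ _ => starDist_nonneg w hw _ _
      rcases hcost with hbig | hcost
      · left
        rw [← hrc] at hbig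
        exact hbig.trans hmono
      · -- if a far site has been used, the cost is large
        by_cases hfar : ∃ l, l ∉ S ∧ load A w hw r n l ≠ 0
        · left
          obtain ⟨l, hlS, hl⟩ := hfar
          refine le_trans ?_ hmono
          rw [hrc]
          obtain ⟨j, hj⟩ := Finset.card_pos.1 (Nat.pos_of_ne_zero hl)
          obtain ⟨hj1, hj2⟩ := Finset.mem_filter.1 hj
          have hjr : r j ≠ some l := by
            by_cases hjT : j < T
            · rw [hr0 j hjT]; simp
            · have := hg1 j (by omega) (Finset.mem_range.1 hj1)
              rw [this.2]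
              intro h
              exact hlS (hKS (Option.some.inj h ▸ this.1))
          calc L ≤ w l := hL l hlS
            _ ≤ starDist w (some (site A w hw r j)) (r j) := by
              rw [hj2]
              unfold starDist
              rw [if_neg (fun h => hjr h.symm)]
              simp only [Option.elim_some]
              have : 0 ≤ (r j).elim 0 w := by
                cases r j with
                | none => simp
                | some i => simpa using (hw i).le
              linarith
            _ ≤ rcost A w hw r n :=
              Finset.single_le_sum (f := fun j => starDist w (some (site A w hw r j)) (r j))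
                (fun j _ => starDist_nonneg w hw _ _) hj1
        · right
          push Not at hfar
          have hsumS : ∑ l ∈ S, (load A w hw r n l : ℝ) = n := by
            have h1 := sum_load A w hw r n
            rw [← Finset.sum_subset (Finset.subset_univ S) (fun l _ hl => hfar l hl)] at h1
            exact_mod_cast h1
          have hnS : n ≤ ∑ j, a j := by omega
          -- total excess of the remaining sites
          have hexc : (T : ℝ) - ∑ l ∈ S, ((c l : ℝ) - a l) ≤
              ∑ l ∈ S \ K, ((load A w hw r n l : ℝ) - ((c l : ℝ) - a l)) := by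
            have h1 := Finset.sum_sdiff (f := fun l => (load A w hw r n l : ℝ)) hKS
            have h2 := Finset.sum_sdiff (f := fun l => ((c l : ℝ) - a l)) hKS
            have h3 : ∑ l ∈ K, (load A w hw r n l : ℝ) ≤ ∑ l ∈ K, (c l : ℝ) :=
              Finset.sum_le_sum fun l _ => by exact_mod_cast load_le A w hw r n hnS l
            have h6 : ∑ l ∈ S \ K, ((load A w hw r n l : ℝ) - ((c l : ℝ) - a l)) =
                ∑ l ∈ S \ K, (load A w hw r n l : ℝ) - ∑ l ∈ S \ K, ((c l : ℝ) - a l) :=
              Finset.sum_sub_distrib _ _
            rw [h6]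
            have h4 : (n : ℝ) = T + ∑ l ∈ K, (a l : ℝ) := by rw [hn]; push_cast; ring
            have h5 : ∑ l ∈ K, ((c l : ℝ) - a l) = ∑ l ∈ K, (c l : ℝ) - ∑ l ∈ K, (a l : ℝ) :=
              Finset.sum_sub_distrib _ _
            linarith
          have hle : ∑ l ∈ S \ K, ((load A w hw r n l : ℝ) - ((c l : ℝ) - a l)) ≤
              ((S.card : ℝ) - k) * ((load A w hw r n i : ℝ) - ((c i : ℝ) - a i)) := by
            have h1 := Finset.sum_le_card_nsmul (S \ K)
              (fun l => (load A w hw r n l : ℝ) - ((c l : ℝ) - a l)) _ hmax
            rw [nsmul_eq_mul, Finset.card_sdiff_of_subset hKS, hKc, Nat.cast_sub (by omega)] at h1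
            exact h1
          have hpos : (0 : ℝ) < (S.card : ℝ) - k := by
            have : (k : ℝ) < S.card := by exact_mod_cast (by omega : k < S.card)
            linarith
          have hexi : ((T : ℝ) - ∑ l ∈ S, ((c l : ℝ) - a l)) * (1 / ((S.card : ℝ) - k)) ≤
              (load A w hw r n i : ℝ) - ((c i : ℝ) - a i) := by
            rw [mul_one_div, div_le_iff₀ hpos]
            linarith
          have hph := phase_cost A w hw hw1 r' n i hcap (fun j hj _ => hr'' j hj)
          rw [hload i, hrc] at hph
          rw [Finset.sum_range_succ]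
          have : (T : ℝ) + 2 * ((T : ℝ) - ∑ i ∈ S, ((c i : ℝ) - a i)) *
              (∑ l ∈ range k, 1 / ((S.card : ℝ) - l) + 1 / ((S.card : ℝ) - k)) =
            (T + 2 * ((T : ℝ) - ∑ i ∈ S, ((c i : ℝ) - a i)) *
              (∑ l ∈ range k, 1 / ((S.card : ℝ) - l))) +
            2 * (((T : ℝ) - ∑ i ∈ S, ((c i : ℝ) - a i)) * (1 / ((S.card : ℝ) - k))) := by ring
          rw [this]
          linarith

end game

theorem sum_harmonic (q : ℕ) (hq : 0 < q) :
    ∑ l ∈ range (q - 1), 1 / ((q : ℝ) - l) = (harmonic q : ℝ) - 1 := by
  obtain ⟨p, rfl⟩ : ∃ p, q = p + 1 := ⟨q - 1, by omega⟩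
  rw [Nat.add_sub_cancel, ← Finset.sum_range_reflect]
  rw [harmonic, Finset.sum_range_succ']
  push_cast
  simp only [inv_one, add_sub_cancel_right]
  refine Finset.sum_congr rfl fun j hj => ?_
  rw [mem_range] at hj
  rw [Nat.cast_sub (by omega), Nat.cast_sub (by omega)]
  rw [one_div]
  congr 1
  push_cast
  ring

/-- The lower bound for one algorithm. -/
theorem main_aux {m : ℕ} (a c : Fin m → ℕ) (S : Finset (Fin m)) (T : ℕ) (hT0 : 0 < T)
    (hT : ∀ i ∈ S, T ≤ a i) (hS : S.Nonempty) (A : OnlineAlgorithm m a c) :
    ENNReal.ofReal (1 + 2 * (1 - (∑ i ∈ S, ((c i : ℝ) - a i)) / T) * ((harmonic S.card : ℝ) - 1)) ≤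
      ⨆ (N : Type) (_ : MetricSpace N) (s : Fin m → N) (_ : Function.Injective s) (r : ℕ → N)
        (n : ℕ) (_ : n ≤ ∑ i, a i), A.cost s r n / opt a s r n := by
  classical
  set B : ℝ := 1 + 2 * (1 - (∑ i ∈ S, ((c i : ℝ) - a i)) / T) * ((harmonic S.card : ℝ) - 1) with hB
  have hTpos : (0 : ℝ) < T := by exact_mod_cast hT0
  set L : ℝ := max 1 (T * B) with hL
  let w : Fin m → ℝ := fun i => if i ∈ S then 1 else L
  have hw1 : ∀ i, 1 ≤ w i := by
    intro i
    simp only [w]
    split_ifs
    · exact le_rfl
    · exact le_max_left _ _
  have hw : ∀ i, 0 < w i := fun i => lt_of_lt_of_le one_pos (hw1 i)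
  have hcard : 0 < S.card := Finset.card_pos.2 hS
  obtain ⟨r, K, hKS, hKc, hr0, ⟨g, hg1, hg2⟩, hcost⟩ := game A w hw hw1 S T hT L
    (fun i hi => by simp [w, hi]) (S.card - 1) (by omega)
  set n := T + ∑ i ∈ K, a i with hn
  obtain ⟨i₀, hi₀S, hi₀K⟩ : ∃ i ∈ S, i ∉ K := by
    by_contra hcon
    push Not at hcon
    exact absurd (Finset.card_le_card hcon) (by omega)
  have hnle : n ≤ ∑ i, a i := by
    calc n = T + ∑ j ∈ K, a j := hn
      _ ≤ a i₀ + ∑ j ∈ K, a j := by gcongr; exact hT i₀ hi₀S
      _ = ∑ j ∈ insert i₀ K, a j := by rw [Finset.sum_insert hi₀K]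
      _ ≤ ∑ j, a j := Finset.sum_le_sum_of_subset (Finset.subset_univ _)
  let inst := starMetric w hw
  have hrc : T * B ≤ rcost A w hw r n := by
    rcases hcost with h | h
    · exact (le_max_right _ _).trans h
    · rw [sum_harmonic S.card hcard] at h
      refine le_trans (le_of_eq ?_) h
      rw [hB]
      field_simp
  -- online cost
  have hon : ENNReal.ofReal (T * B) ≤ A.cost (N := Option (Fin m)) some r n := by
    refine (ENNReal.ofReal_le_ofReal hrc).trans (le_of_eq ?_)
    unfold rcost OnlineAlgorithm.cost
    rw [ENNReal.ofReal_sum_of_nonneg fun j _ => starDist_nonneg w hw _ _]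
    refine Finset.sum_congr rfl fun j _ => ?_
    rw [edist_dist]
    rfl
  -- offline cost
  have hopt : opt (N := Option (Fin m)) a some r n ≤ T := by
    unfold opt
    refine iInf₂_le_of_le (fun j => if j < T then i₀ else g j) ?_ ?_
    · intro i
      have h1 : {j | j < n ∧ (if j < T then i₀ else g j) = i} ⊆
          (((range T).filter fun _ => i₀ = i) ∪
            ((Ico T n).filter fun j => g j = i) : Finset ℕ) := by
        intro j hj
        obtain ⟨hj1, hj2⟩ := hj
        rw [Finset.mem_coe, Finset.mem_union, Finset.mem_filter, Finset.mem_filter, mem_range,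
          mem_Ico]
        by_cases hjT : j < T
        · left
          rw [if_pos hjT] at hj2
          exact ⟨hjT, hj2⟩
        · right
          rw [if_neg hjT] at hj2
          exact ⟨⟨by omega, hj1⟩, hj2⟩
      refine (Set.ncard_le_ncard h1 (Finset.finite_toSet _)).trans ?_
      rw [Set.ncard_coe_finset]
      refine (Finset.card_union_le _ _).trans ?_
      by_cases hi : i₀ = i
      · subst hi
        have h2 : ((Ico T n).filter fun j => g j = i₀) = ∅ := by
          rw [Finset.filter_eq_empty_iff]
          intro j hj hgj
          rw [mem_Ico] at hj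
          exact hi₀K (hgj ▸ (hg1 j hj.1 hj.2).1)
        rw [h2]
        simp only [Finset.filter_true, card_range, Finset.card_empty, add_zero]
        exact hT i₀ hi₀S
      · simp only [hi, Finset.filter_false, Finset.card_empty, zero_add]
        by_cases hiK : i ∈ K
        · exact (hg2 i hiK).le
        · have h2 : ((Ico T n).filter fun j => g j = i) = ∅ := by
            rw [Finset.filter_eq_empty_iff]
            intro j hj hgj
            rw [mem_Ico] at hj
            exact hiK (hgj ▸ (hg1 j hj.1 hj.2).1)
          rw [h2]
          simp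
    · have hsplit : range n = range T ∪ Ico T n := by
        ext j
        simp only [mem_range, mem_union, mem_Ico, hn]
        omega
      rw [hsplit, Finset.sum_union (by
        rw [Finset.disjoint_left]
        intro j hj hj'
        rw [mem_range] at hj
        rw [mem_Ico] at hj'
        omega)]
      have h1 : ∑ j ∈ range T, edist (some (if j < T then i₀ else g j) : Option (Fin m)) (r j) =
          T := by
        rw [Finset.sum_congr rfl (g := fun _ => (1 : ℝ≥0∞))]
        · simp
        · intro j hj
          rw [mem_range] at hj
          rw [if_pos hj, hr0 j hj, edist_dist]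
          have : dist (some i₀ : Option (Fin m)) none = 1 := by
            change starDist w (some i₀) none = 1
            unfold starDist
            simp [w, hi₀S]
          rw [this, ENNReal.ofReal_one]
      have h2 : ∑ j ∈ Ico T n, edist (some (if j < T then i₀ else g j) : Option (Fin m)) (r j) =
          0 := by
        refine Finset.sum_eq_zero fun j hj => ?_
        rw [mem_Ico] at hj
        rw [if_neg (by omega), (hg1 j hj.1 hj.2).2, edist_self]
      rw [h1, h2, add_zero]
  refine le_iSup_of_le (Option (Fin m)) (le_iSup_of_le inst (le_iSup_of_le some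
    (le_iSup_of_le (Option.some_injective _) (le_iSup_of_le r (le_iSup_of_le n
      (le_iSup_of_le hnle ?_))))))
  calc ENNReal.ofReal B = ENNReal.ofReal (T * B) / T := by
        rw [ENNReal.ofReal_mul hTpos.le, ENNReal.ofReal_natCast]
        rw [ENNReal.eq_div_iff (by exact_mod_cast hT0.ne') (ENNReal.natCast_ne_top T)]
    _ ≤ A.cost some r n / opt a some r n := ENNReal.div_le_div hon hopt

theorem main {m : ℕ} (a c : Fin m → ℕ) (S : Finset (Fin m)) (T : ℕ) (hT0 : 0 < T)
    (hT : ∀ i ∈ S, T ≤ a i) :
    ENNReal.ofReal (1 + 2 * (1 - (∑ i ∈ S, ((c i : ℝ) - a i)) / T) * ((harmonic S.card : ℝ) - 1)) ≤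
      Rstar a c := by
  unfold Rstar
  refine le_iInf fun A => ?_
  by_cases hS : S.Nonempty
  · exact main_aux a c S T hT0 hT hS A
  · rw [Finset.not_nonempty_iff_eq_empty] at hS
    subst hS
    rw [ENNReal.ofReal_of_nonpos]
    · exact zero_le
    · simp

end Pool.Agent.Helper84.Transport
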