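import Mathlib

/-!
The infinitary logic `L_{∞,∞}` over a signature (a Mathlib `FirstOrder.Language`), its
satisfaction relation, and its fragment `L_{ω₁,ω}`.
-/

namespace Pool.Agent.Helper84

open FirstOrder

universe u v

/-- Formulas of the infinitary logic `L_{∞,∞}` over the signature `L`, with free variables
indexed by a type `α`.  Besides the first-order constructors there are conjunctions and
disjunctions of families of formulas indexed by an arbitrary type `ι`, and universal and
existential quantification over a block of variables indexed by an arbitrary type `β`
(every set can be well ordered).  The index types range over `Type u`, so each formula has only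
a set of subformulas. -/
inductive InfFormula (L : FirstOrder.Language.{0, 0}) : Type u → Type (u + 1)
  | equal {α : Type u} (t₁ t₂ : L.Term α) : InfFormula L α
  | rel {α : Type u} {n : ℕ} (R : L.Relations n) (ts : Fin n → L.Term α) : InfFormula L α
  | not {α : Type u} (φ : InfFormula L α) : InfFormula L α
  | conj {α : Type u} (ι : Type u) (φ : ι → InfFormula L α) : InfFormula L α
  | disj {α : Type u} (ι : Type u) (φ : ι → InfFormula L α) : InfFormula L α
  | all {α : Type u} (β : Type u) (φ : InfFormula L (α ⊕ β)) : InfFormula L α
  | ex {α : Type u} (β : Type u) (φ : InfFormula L (α ⊕ β)) : InfFormula L α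

namespace InfFormula

variable {L : FirstOrder.Language.{0, 0}}

/-- Satisfaction of a formula of `L_{∞,∞}` in the structure `M` under an assignment `s` of
elements of `M` to the free variables, by recursion on the formula. -/
noncomputable def Realize (M : Type v) [L.Structure M] {α : Type u} (φ : InfFormula.{u} L α) :
    (α → M) → Prop :=
  InfFormula.rec (motive := fun α _ => (α → M) → Prop)
    (fun t₁ t₂ s => t₁.realize s = t₂.realize s)
    (fun R ts s => Language.Structure.RelMap R (fun i => (ts i).realize s))
    (fun _ ih s => ¬ ih s)
    (fun ι _ ih s => ∀ i : ι, ih i s)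
    (fun ι _ ih s => ∃ i : ι, ih i s)
    (fun β _ ih s => ∀ t : β → M, ih (Sum.elim s t))
    (fun β _ ih s => ∃ t : β → M, ih (Sum.elim s t))
    φ

/-- The formula lies in the fragment `L_{ω₁,ω}`: all conjunctions and disjunctions in it are
countable and every quantifier binds only finitely many variables. -/
noncomputable def IsOmega1Omega {α : Type u} (φ : InfFormula.{u} L α) : Prop :=
  InfFormula.rec (motive := fun _ _ => Prop)
    (fun _ _ => True)
    (fun _ _ => True)
    (fun _ ih => ih)
    (fun ι _ ih => Countable ι ∧ ∀ i : ι, ih i)
    (fun ι _ ih => Countable ι ∧ ∀ i : ι, ih i)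
    (fun β _ ih => Finite β ∧ ih)
    (fun β _ ih => Finite β ∧ ih)
    φ

end InfFormula

/-- A sentence of `L_{∞,∞}`: a formula without free variables. -/
abbrev InfSentence (L : FirstOrder.Language.{0, 0}) : Type (u + 1) := InfFormula.{u} L PEmpty

/-- `M ⊨ φ` for a sentence `φ` of `L_{∞,∞}` and a structure `M` of its signature. -/
def InfSentence.Holds {L : FirstOrder.Language.{0, 0}} (φ : InfSentence.{u} L) (M : Type v)
    [L.Structure M] : Prop :=
  φ.Realize M PEmpty.elim

end Pool.Agent.Helper84
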