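import Pool.Agent.Helper84.InfLogic

/-! Auxiliary combinators for `L_{∞,∞}` formulas and a compactness lemma. -/

namespace Pool.Agent.Helper84

open FirstOrder

universe u v

namespace InfFormula

variable {L : FirstOrder.Language.{0, 0}} {α : Type}

/-- The formula with the constant truth value `P`. -/
def lift (P : Prop) : InfFormula.{0} L α := .disj (PLift P) fun _ => .conj Empty Empty.elim

def and (φ ψ : InfFormula.{0} L α) : InfFormula.{0} L α := .conj Bool fun b => bif b then φ else ψ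

def or (φ ψ : InfFormula.{0} L α) : InfFormula.{0} L α := .disj Bool fun b => bif b then φ else ψ

def imp (φ ψ : InfFormula.{0} L α) : InfFormula.{0} L α := or (.not φ) ψ

section
variable (M : Type v) [L.Structure M] (s : α → M)

@[simp] theorem realize_equal (t₁ t₂ : L.Term α) :
    Realize M (.equal t₁ t₂) s ↔ t₁.realize s = t₂.realize s := Iff.rfl
@[simp] theorem realize_not (φ : InfFormula.{0} L α) :
    Realize M (.not φ) s ↔ ¬ Realize M φ s := Iff.rfl
@[simp] theorem realize_conj (ι : Type) (φ : ι → InfFormula.{0} L α) :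
    Realize M (.conj ι φ) s ↔ ∀ i, Realize M (φ i) s := Iff.rfl
@[simp] theorem realize_disj (ι : Type) (φ : ι → InfFormula.{0} L α) :
    Realize M (.disj ι φ) s ↔ ∃ i, Realize M (φ i) s := Iff.rfl
@[simp] theorem realize_all (β : Type) (φ : InfFormula.{0} L (α ⊕ β)) :
    Realize M (.all β φ) s ↔ ∀ t : β → M, Realize M φ (Sum.elim s t) := Iff.rfl
@[simp] theorem realize_ex (β : Type) (φ : InfFormula.{0} L (α ⊕ β)) :
    Realize M (.ex β φ) s ↔ ∃ t : β → M, Realize M φ (Sum.elim s t) := Iff.rfl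

@[simp] theorem realize_lift (P : Prop) : Realize M (lift (L := L) (α := α) P) s ↔ P := by
  constructor
  · rintro ⟨⟨h⟩, -⟩
    exact h
  · intro h
    exact ⟨⟨h⟩, fun i => i.elim⟩

@[simp] theorem realize_and (φ ψ : InfFormula.{0} L α) :
    Realize M (and φ ψ) s ↔ Realize M φ s ∧ Realize M ψ s := by
  simp [and]
  exact Iff.intro (fun h => ⟨h.2, h.1⟩) (fun h => ⟨h.2, h.1⟩)

@[simp] theorem realize_or (φ ψ : InfFormula.{0} L α) :
    Realize M (or φ ψ) s ↔ Realize M φ s ∨ Realize M ψ s := by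
  simp [or]
  exact Iff.intro (fun h => h.symm) (fun h => h.symm)

@[simp] theorem realize_imp (φ ψ : InfFormula.{0} L α) :
    Realize M (imp φ ψ) s ↔ (Realize M φ s → Realize M ψ s) := by
  simp [imp, imp_iff_not_or]

end

@[simp] theorem om_equal (t₁ t₂ : L.Term α) : IsOmega1Omega (.equal t₁ t₂) := trivial
@[simp] theorem om_not (φ : InfFormula.{0} L α) :
    IsOmega1Omega (.not φ) ↔ IsOmega1Omega φ := Iff.rfl
@[simp] theorem om_conj (ι : Type) (φ : ι → InfFormula.{0} L α) :
    IsOmega1Omega (.conj ι φ) ↔ Countable ι ∧ ∀ i, IsOmega1Omega (φ i) := Iff.rfl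
@[simp] theorem om_disj (ι : Type) (φ : ι → InfFormula.{0} L α) :
    IsOmega1Omega (.disj ι φ) ↔ Countable ι ∧ ∀ i, IsOmega1Omega (φ i) := Iff.rfl
@[simp] theorem om_all (β : Type) (φ : InfFormula.{0} L (α ⊕ β)) :
    IsOmega1Omega (.all β φ) ↔ Finite β ∧ IsOmega1Omega φ := Iff.rfl
@[simp] theorem om_ex (β : Type) (φ : InfFormula.{0} L (α ⊕ β)) :
    IsOmega1Omega (.ex β φ) ↔ Finite β ∧ IsOmega1Omega φ := Iff.rfl

@[simp] theorem om_lift (P : Prop) : IsOmega1Omega (lift (L := L) (α := α) P) := by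
  refine ⟨inferInstance, fun _ => ⟨inferInstance, fun i => i.elim⟩⟩

@[simp] theorem om_and (φ ψ : InfFormula.{0} L α) :
    IsOmega1Omega (and φ ψ) ↔ IsOmega1Omega φ ∧ IsOmega1Omega ψ := by
  simp [and]
  constructor
  · rintro ⟨-, h⟩
    exact ⟨h.2, h.1⟩
  · intro h
    exact ⟨inferInstance, h.2, h.1⟩

@[simp] theorem om_or (φ ψ : InfFormula.{0} L α) :
    IsOmega1Omega (or φ ψ) ↔ IsOmega1Omega φ ∧ IsOmega1Omega ψ := by
  simp [or]
  constructor
  · rintro ⟨-, h⟩
    exact ⟨h.2, h.1⟩
  · intro h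
    exact ⟨inferInstance, h.2, h.1⟩

@[simp] theorem om_imp (φ ψ : InfFormula.{0} L α) :
    IsOmega1Omega (imp φ ψ) ↔ IsOmega1Omega φ ∧ IsOmega1Omega ψ := by
  simp [imp]

end InfFormula

/-- Compactness for colourings with finitely many colours: if every finite subset `F` of `M`
carries an `n`-colouring `h F` (defined on all of `M`), then there is one colouring `H` that agrees
on every finite set simultaneously with some `h F` where `F` can be taken to contain any given
finite set. -/
theorem exists_limit_colouring {M : Type v} {n : ℕ} (h : Finset M → M → Fin n) :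
    ∃ H : M → Fin n, ∀ E : Finset M, ∃ F : Finset M, E ⊆ F ∧ ∀ x ∈ E, h F x = H x := by
  classical
  let U : Ultrafilter (Finset M) := Ultrafilter.of Filter.atTop
  have hU : (U : Filter (Finset M)) ≤ Filter.atTop := Ultrafilter.of_le _
  have hlim : ∀ x : M, ∃ c : Fin n, ∀ᶠ F in (U : Filter (Finset M)), h F x = c := by
    intro x
    obtain ⟨c, hc⟩ := (U.map (fun F => h F x)).eq_pure_of_finite
    refine ⟨c, ?_⟩
    have : {c} ∈ (U.map (fun F => h F x)) := by
      rw [hc]
      simp
    rw [Ultrafilter.mem_map] at this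
    exact this
  choose H hH using hlim
  refine ⟨H, fun E => ?_⟩
  have h1 : ∀ᶠ F in (U : Filter (Finset M)), E ⊆ F := hU (Filter.mem_atTop E)
  have h2 : ∀ᶠ F in (U : Filter (Finset M)), ∀ x ∈ E, h F x = H x :=
    (Filter.eventually_all_finset E).2 fun x _ => hH x
  obtain ⟨F, hF⟩ := (h1.and h2).exists
  exact ⟨F, hF⟩

end Pool.Agent.Helper84
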