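import Mathlib

/-!
Abstract lemmas on sums over trajectories of a (sub-)Markov chain, with values in `ℝ≥0∞`.
-/

namespace Pool.Agent.Helper84.Markov

open scoped ENNReal NNReal
open Finset

universe u

variable {A : Type u}

open Classical in
/-- Sum over trajectories of length `k` from `a₀` to `b` of the products of step weights. -/
noncomputable def reach (step : A → A → ℝ≥0∞) (a₀ : A) (k : ℕ) (b : A) : ℝ≥0∞ :=
  ∑' s : Fin (k + 1) → A,
    if s 0 = a₀ ∧ s (Fin.last k) = b then ∏ i : Fin k, step (s i.castSucc) (s i.succ) else 0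

theorem reach_zero (step : A → A → ℝ≥0∞) (a₀ : A) (E : A → ℝ≥0∞) :
    ∑' b, reach step a₀ 0 b * E b = E a₀ := by
  classical
  have h : ∀ b, reach step a₀ 0 b = if b = a₀ then 1 else 0 := by
    intro b
    unfold reach
    rw [← (Equiv.funUnique (Fin 1) A).symm.tsum_eq]
    simp only [Equiv.funUnique_symm_apply, uniqueElim_const, Finset.univ_eq_empty,
      Finset.prod_empty]
    rw [tsum_eq_single a₀]
    · by_cases hb : b = a₀
      · simp [hb]
      · have : a₀ ≠ b := fun h => hb h.symm
        simp [hb, this]
    · intro x hx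
      simp [hx]
  rw [tsum_eq_single a₀]
  · simp [h]
  · intro b hb
    simp [h, hb]

theorem reach_succ (step : A → A → ℝ≥0∞) (a₀ : A) (k : ℕ) (b : A) :
    reach step a₀ (k + 1) b = ∑' a, reach step a₀ k a * step a b := by
  classical
  unfold reach
  rw [← (Fin.snocEquiv (fun _ : Fin (k + 2) => A)).tsum_eq]
  rw [ENNReal.tsum_prod', ENNReal.tsum_comm]
  have h1 : ∀ (s : Fin (k + 1) → A), (∑' a : A,
      (if (Fin.snocEquiv (fun _ : Fin (k + 2) => A)) (a, s) 0 = a₀ ∧
        (Fin.snocEquiv (fun _ : Fin (k + 2) => A)) (a, s) (Fin.last (k + 1)) = b then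
        ∏ i : Fin (k + 1), step ((Fin.snocEquiv (fun _ : Fin (k + 2) => A)) (a, s) i.castSucc)
          ((Fin.snocEquiv (fun _ : Fin (k + 2) => A)) (a, s) i.succ) else 0)) =
      if s 0 = a₀ then (∏ i : Fin k, step (s i.castSucc) (s i.succ)) * step (s (Fin.last k)) b
        else 0 := by
    intro s
    rw [tsum_eq_single b]
    · have h0 : (Fin.snocEquiv (fun _ : Fin (k + 2) => A)) (b, s) 0 = s 0 := by
        change Fin.snoc (α := fun _ => A) s b 0 = s 0
        rw [← Fin.castSucc_zero, Fin.snoc_castSucc]
      have hl : (Fin.snocEquiv (fun _ : Fin (k + 2) => A)) (b, s) (Fin.last (k + 1)) = b := by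
        change Fin.snoc (α := fun _ => A) s b (Fin.last (k + 1)) = b
        rw [Fin.snoc_last]
      rw [h0, hl]
      simp only [and_true]
      congr 1
      rw [Fin.prod_univ_castSucc]
      congr 1
      · refine Finset.prod_congr rfl fun i _ => ?_
        congr 1
        · change Fin.snoc (α := fun _ => A) s b _ = _
          rw [Fin.snoc_castSucc]
        · change Fin.snoc (α := fun _ => A) s b _ = _
          rw [Fin.succ_castSucc, Fin.snoc_castSucc]
      · congr 1
        · change Fin.snoc (α := fun _ => A) s b _ = _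
          rw [Fin.snoc_castSucc]
    · intro a ha
      have hl : (Fin.snocEquiv (fun _ : Fin (k + 2) => A)) (a, s) (Fin.last (k + 1)) = a := by
        change Fin.snoc (α := fun _ => A) s a (Fin.last (k + 1)) = a
        rw [Fin.snoc_last]
      rw [hl]
      simp [ha]
  simp_rw [h1]
  simp_rw [← ENNReal.tsum_mul_right]
  rw [ENNReal.tsum_comm]
  refine tsum_congr fun s => ?_
  rw [tsum_eq_single (s (Fin.last k))]
  · by_cases h : s 0 = a₀ <;> simp [h]
  · intro a ha
    have : s (Fin.last k) ≠ a := fun h => ha h.symm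
    simp [this]

/-- Invariants of trajectories of positive weight. -/
theorem reach_inv (step : A → A → ℝ≥0∞) (a₀ : A) (Inv : ℕ → A → Prop) (h0 : Inv 0 a₀)
    (hs : ∀ k a b, Inv k a → step a b ≠ 0 → Inv (k + 1) b) (k : ℕ) :
    ∀ b, reach step a₀ k b ≠ 0 → Inv k b := by
  classical
  induction k with
  | zero =>
    intro b hb
    have h := reach_zero step a₀ (fun c => if c = b then 1 else 0)
    rw [tsum_eq_single b (by intro c hc; simp [hc])] at h
    by_cases hab : a₀ = b
    · rwa [← hab]
    · simp [hab] at h
      exact absurd h hb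
  | succ k ih =>
    intro b hb
    rw [reach_succ] at hb
    have : ∃ a, reach step a₀ k a * step a b ≠ 0 := by
      by_contra hcon
      push Not at hcon
      exact hb (by simp [hcon])
    obtain ⟨a, ha⟩ := this
    exact hs k a b (ih a (left_ne_zero_of_mul ha)) (right_ne_zero_of_mul ha)

/-- Expected number of visits to `E` within `j` steps. -/
noncomputable def val (step : A → A → ℝ≥0∞) (E : A → ℝ≥0∞) : ℕ → A → ℝ≥0∞
  | 0, a => E a
  | j + 1, a => E a + ∑' b, step a b * val step E j b

theorem sum_reach_eq (step : A → A → ℝ≥0∞) (a₀ : A) (E : A → ℝ≥0∞) (j : ℕ) :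
    ∀ k, ∑ i ∈ range (j + 1), ∑' a, reach step a₀ (k + i) a * E a =
      ∑' a, reach step a₀ k a * val step E j a := by
  induction j with
  | zero => intro k; simp [val]
  | succ j ih =>
    intro k
    rw [Finset.sum_range_succ']
    have h1 : ∑ i ∈ range (j + 1), ∑' a, reach step a₀ (k + (i + 1)) a * E a =
        ∑' a, reach step a₀ (k + 1) a * val step E j a := by
      rw [← ih (k + 1)]
      refine Finset.sum_congr rfl fun i _ => ?_
      rw [show k + (i + 1) = k + 1 + i by omega]
    rw [h1]
    simp only [val, mul_add, add_zero]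
    rw [ENNReal.tsum_add, add_comm]
    congr 1
    simp_rw [reach_succ, ← ENNReal.tsum_mul_left, ← ENNReal.tsum_mul_right]
    rw [ENNReal.tsum_comm]
    refine tsum_congr fun a => tsum_congr fun b => ?_
    rw [mul_assoc]

theorem sum_reach_eq_val (step : A → A → ℝ≥0∞) (a₀ : A) (E : A → ℝ≥0∞) (j : ℕ) :
    ∑ i ∈ range (j + 1), ∑' a, reach step a₀ i a * E a = val step E j a₀ := by
  have := sum_reach_eq step a₀ E j 0
  simp only [zero_add] at this
  rw [this, reach_zero]

theorem val_le_one (step : A → A → ℝ≥0∞) (E : A → ℝ≥0∞) (hE : ∀ a, E a ≤ 1)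
    (hst : ∀ a, ∑' b, step a b ≤ 1) (hterm : ∀ a, E a ≠ 0 → ∀ b, step a b = 0) (j : ℕ) :
    ∀ a, val step E j a ≤ 1 := by
  induction j with
  | zero => exact hE
  | succ j ih =>
    intro a
    simp only [val]
    by_cases h : E a = 0
    · rw [h, zero_add]
      calc ∑' b, step a b * val step E j b ≤ ∑' b, step a b * 1 :=
            ENNReal.tsum_le_tsum fun b => mul_le_mul_right (ih b) _
        _ ≤ 1 := by simpa using hst a
    · have h0 := hterm a h
      simp only [h0, zero_mul, tsum_zero, add_zero]
      exact hE a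

/-- Comparison of two chains whose one-step averages of `[0,1]`-valued functions are close. -/
theorem val_le_val_add (step step' : A → A → ℝ≥0∞) (E : A → ℝ≥0∞) (hE : ∀ a, E a ≤ 1)
    (hst : ∀ a, ∑' b, step a b ≤ 1)
    (hst' : ∀ a, ∑' b, step' a b ≤ 1) (hterm' : ∀ a, E a ≠ 0 → ∀ b, step' a b = 0)
    (κ : ℝ≥0∞) (hclose : ∀ (f : A → ℝ≥0∞), (∀ a, f a ≤ 1) → ∀ a,
      ∑' b, step a b * f b ≤ ∑' b, step' a b * f b + κ) (j : ℕ) :
    ∀ a, val step E j a ≤ val step' E j a + j * κ := by
  induction j with
  | zero => intro a; simp [val]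
  | succ j ih =>
    intro a
    simp only [val]
    have h1 : ∑' b, step a b * val step E j b ≤
        ∑' b, step a b * val step' E j b + j * κ := by
      calc ∑' b, step a b * val step E j b
          ≤ ∑' b, (step a b * val step' E j b + step a b * (j * κ)) :=
            ENNReal.tsum_le_tsum fun b => by
              rw [← mul_add]
              exact mul_le_mul_right (ih b) _
        _ = ∑' b, step a b * val step' E j b + (∑' b, step a b) * (j * κ) := by
            rw [ENNReal.tsum_add, ENNReal.tsum_mul_right]
        _ ≤ ∑' b, step a b * val step' E j b + 1 * (j * κ) := by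
            gcongr
            exact hst a
        _ = _ := by rw [one_mul]
    have h2 := hclose (val step' E j) (val_le_one step' E hE hst' hterm' j) a
    calc E a + ∑' b, step a b * val step E j b
        ≤ E a + ((∑' b, step' a b * val step' E j b + κ) + j * κ) := by
          gcongr
          exact h1.trans (by gcongr)
      _ = E a + ∑' b, step' a b * val step' E j b + ((j : ℕ) + 1 : ℕ) * κ := by
          push_cast
          ring

end Pool.Agent.Helper84.Markov
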