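import Pool.Agent.Helper84.InfLogic

/-! The signature of groups and residually finite groups. -/

namespace Pool.Agent.Helper84.RFGroups

open FirstOrder

universe v

/-- The operation symbols `1`, `⁻¹`, `·` of the signature of groups, with their arities. -/
inductive GroupOp : ℕ → Type
  | one : GroupOp 0
  | inv : GroupOp 1
  | mul : GroupOp 2

/-- The signature `{·, ⁻¹, 1}` of groups (no relation symbols besides equality). -/
abbrev groupSignature : FirstOrder.Language.{0, 0} where
  Functions := GroupOp
  Relations := fun _ => Empty

/-- The structure `M` of the signature of groups has the operations of the given group structure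
on `M`. -/
structure Interprets (M : Type v) [Group M] [groupSignature.Structure M] : Prop where
  one : Language.Structure.funMap (L := groupSignature) GroupOp.one ![] = (1 : M)
  inv : ∀ x : M, Language.Structure.funMap (L := groupSignature) GroupOp.inv ![x] = x⁻¹
  mul : ∀ x y : M, Language.Structure.funMap (L := groupSignature) GroupOp.mul ![x, y] = x * y

/-- A group `G` is residually finite: for every `g ≠ 1` there is a normal subgroup `N` of `G` of
finite index with `g ∉ N`. -/
def ResiduallyFinite (G : Type v) [Group G] : Prop :=
  ∀ g : G, g ≠ 1 → ∃ N : Subgroup G, N.Normal ∧ N.FiniteIndex ∧ g ∉ N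

end Pool.Agent.Helper84.RFGroups
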