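import Pool.Agent.Helper84.InfLogicComb
import Pool.Agent.Helper84.RFGroupsDefs

/-! Proof that residually finite groups are axiomatised by a sentence of `L_{ω₁,ω}`. -/

namespace Pool.Agent.Helper84.RFGroups

open FirstOrder Pool.Agent.Helper84 Pool.Agent.Helper84.InfFormula

universe v

section formula

variable {α : Type}

def tone : groupSignature.Term α := Language.Term.func (L := groupSignature) GroupOp.one ![]
def tinv (s : groupSignature.Term α) : groupSignature.Term α :=
  Language.Term.func (L := groupSignature) GroupOp.inv ![s]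
def tmul (s t : groupSignature.Term α) : groupSignature.Term α :=
  Language.Term.func (L := groupSignature) GroupOp.mul ![s, t]

variable (M : Type v) [groupSignature.Structure M]

def mone : M := Language.Structure.funMap (L := groupSignature) GroupOp.one ![]
variable {M}
def minv (x : M) : M := Language.Structure.funMap (L := groupSignature) GroupOp.inv ![x]
def mmul (x y : M) : M := Language.Structure.funMap (L := groupSignature) GroupOp.mul ![x, y]

@[simp] theorem realize_var' (s : α → M) (x : α) :
    (Language.Term.var x : groupSignature.Term α).realize s = s x := rfl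

@[simp] theorem realize_tone (s : α → M) : (tone (α := α)).realize s = mone M := by
  unfold tone mone
  rw [Language.Term.realize_func]
  congr 1
  exact Subsingleton.elim _ _

@[simp] theorem realize_tinv (s : α → M) (t : groupSignature.Term α) :
    (tinv t).realize s = minv (t.realize s) := by
  unfold tinv minv
  rw [Language.Term.realize_func]
  congr 1
  funext i
  fin_cases i
  rfl

@[simp] theorem realize_tmul (s : α → M) (t t' : groupSignature.Term α) :
    (tmul t t').realize s = mmul (t.realize s) (t'.realize s) := by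
  unfold tmul mmul
  rw [Language.Term.realize_func]
  congr 1
  funext i
  fin_cases i <;> rfl

end formula

/-- The group axioms. -/
def groupAxioms : InfSentence.{0} groupSignature :=
  let x : groupSignature.Term (PEmpty.{1} ⊕ Fin 3) := Language.Term.var (Sum.inr 0)
  let y : groupSignature.Term (PEmpty.{1} ⊕ Fin 3) := Language.Term.var (Sum.inr 1)
  let z : groupSignature.Term (PEmpty.{1} ⊕ Fin 3) := Language.Term.var (Sum.inr 2)
  .all (Fin 3) <|
    and (.equal (tmul (tmul x y) z) (tmul x (tmul y z))) <|
    and (.equal (tmul tone x) x)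
      (.equal (tmul (tinv x) x) tone)

/-- The `n`-colouring `h` of the variables `x₀, …, x_{k-1}` is a partial congruence which
separates the variable `a` from the identity. -/
def goodColouring (n k : ℕ) (h : Fin k → Fin n) :
    InfFormula.{0} groupSignature ((PEmpty.{1} ⊕ Fin 1) ⊕ Fin k) :=
  let a : groupSignature.Term ((PEmpty.{1} ⊕ Fin 1) ⊕ Fin k) :=
    Language.Term.var (Sum.inl (Sum.inr 0))
  let x : Fin k → groupSignature.Term ((PEmpty.{1} ⊕ Fin 1) ⊕ Fin k) :=
    fun i => Language.Term.var (Sum.inr i)
  and
    (.conj (Fin k × Fin k) fun p =>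
      and (imp (.equal (x p.1) (x p.2)) (lift (h p.1 = h p.2)))
        (imp (lift (h p.1 = h p.2)) (.not (and (.equal (x p.1) a) (.equal (x p.2) tone)))))
    (.conj ((Fin k × Fin k × Fin k) × (Fin k × Fin k × Fin k)) fun p =>
      imp (lift (h p.1.1 = h p.2.1 ∧ h p.1.2.1 = h p.2.2.1))
        (imp (and (.equal (tmul (x p.1.1) (x p.1.2.1)) (x p.1.2.2))
          (.equal (tmul (x p.2.1) (x p.2.2.1)) (x p.2.2.2))) (lift (h p.1.2.2 = h p.2.2.2))))

/-- The sentence axiomatising residually finite groups. -/
def theSentence : InfSentence.{0} groupSignature :=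
  and groupAxioms <|
    .all (Fin 1) <|
      or (.equal (Language.Term.var (Sum.inr 0)) tone) <|
        .disj ℕ fun n => .conj ℕ fun k => .all (Fin k) <| .disj (Fin k → Fin n) fun h =>
          goodColouring n k h

theorem theSentence_om : IsOmega1Omega theSentence := by
  simp only [theSentence, groupAxioms, goodColouring, om_all, om_and, om_or, om_conj,
    om_disj, om_imp, om_lift, om_not, om_equal, and_true, true_and, implies_true]
  refine ⟨inferInstance, inferInstance, inferInstance, fun n => ⟨inferInstance, fun k =>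
    ⟨inferInstance, inferInstance, fun _ => ⟨inferInstance, inferInstance⟩⟩⟩⟩

/-- Being a good colouring of all of `M`. -/
structure Good {M : Type v} [groupSignature.Structure M] (a : M) {n : ℕ} (S : Set M)
    (H : M → Fin n) : Prop where
  sep : ∀ x ∈ S, ∀ y ∈ S, H x = H y → ¬ (x = a ∧ y = mone M)
  mul : ∀ x ∈ S, ∀ y ∈ S, ∀ z ∈ S, ∀ x' ∈ S, ∀ y' ∈ S, ∀ z' ∈ S, H x = H x' → H y = H y' →
    mmul x y = z → mmul x' y' = z' → H z = H z'

theorem realize_goodColouring_of {M : Type v} [groupSignature.Structure M] (a : M) {n : ℕ}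
    (H : M → Fin n) (hH : Good a Set.univ H) (k : ℕ) (x : Fin k → M) (s : PEmpty ⊕ Fin 1 → M)
    (hs : s (Sum.inr 0) = a) :
    Realize M (goodColouring n k fun i => H (x i)) (Sum.elim s x) := by
  simp only [goodColouring, realize_and, realize_conj, realize_imp, realize_equal, realize_var',
    Sum.elim_inr, Sum.elim_inl, realize_lift, realize_not, realize_tone, realize_tmul]
  refine ⟨fun p => ⟨fun h => by rw [h], fun h => ?_⟩, fun p hp h => ?_⟩
  · rw [hs]
    exact hH.sep _ trivial _ trivial h
  · exact hH.mul _ trivial _ trivial _ trivial _ trivial _ trivial _ trivial hp.1 hp.2 h.1 h.2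

theorem exists_good_finite {M : Type v} [groupSignature.Structure M] (a : M) {n : ℕ}
    (s : PEmpty ⊕ Fin 1 → M) (hs : s (Sum.inr 0) = a)
    (h : ∀ (k : ℕ) (x : Fin k → M), ∃ h : Fin k → Fin n,
      Realize M (goodColouring n k h) (Sum.elim s x)) (F : Finset M) :
    ∃ H : M → Fin n, Good a (F : Set M) H := by
  classical
  obtain ⟨g, hg⟩ := h (F.card + 1) (fun i => if hi : (i : ℕ) < F.card then
    (F.equivFin.symm ⟨i, hi⟩ : M) else a)
  set x : Fin (F.card + 1) → M := (fun i => if hi : (i : ℕ) < F.card then
    (F.equivFin.symm ⟨i, hi⟩ : M) else a) with hx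
  have hx' : ∀ y ∈ F, ∃ i, x i = y := by
    intro y hy
    refine ⟨⟨F.equivFin ⟨y, hy⟩, ?_⟩, ?_⟩
    · have := (F.equivFin ⟨y, hy⟩).2
      omega
    · simp [hx]
  choose! idx hidx using hx'
  refine ⟨fun y => g (idx y), ?_⟩
  simp only [goodColouring, realize_and, realize_conj, realize_imp, realize_equal, realize_var',
    Sum.elim_inr, Sum.elim_inl, realize_lift, realize_not, realize_tone, realize_tmul,
    hs] at hg
  obtain ⟨hg1, hg2⟩ := hg
  refine ⟨?_, ?_⟩
  · intro y hy z hz hyz hc
    have := (hg1 (idx y, idx z)).2 hyz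
    simp only [hidx y hy, hidx z hz] at this
    exact this hc
  · intro y hy z hz w hw y' hy' z' hz' w' hw' h1 h2 h3 h4
    have := (hg2 ((idx y, idx z, idx w), (idx y', idx z', idx w')) ⟨h1, h2⟩)
    simp only [hidx y hy, hidx z hz, hidx w hw, hidx y' hy', hidx z' hz', hidx w' hw'] at this
    exact this ⟨h3, h4⟩

theorem exists_good {M : Type v} [groupSignature.Structure M] (a : M) {n : ℕ}
    (h : ∀ F : Finset M, ∃ H : M → Fin n, Good a (F : Set M) H) :
    ∃ H : M → Fin n, Good a Set.univ H := by
  classical
  choose h hh using h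
  obtain ⟨H, hH⟩ := exists_limit_colouring h
  refine ⟨H, ?_, ?_⟩
  · intro x _ y _ hxy
    obtain ⟨F, hF, hF'⟩ := hH {x, y}
    refine (hh F).sep x (hF (by simp)) y (hF (by simp)) ?_
    rw [hF' x (by simp), hF' y (by simp), hxy]
  · intro x _ y _ z _ x' _ y' _ z' _ h1 h2 h3 h4
    obtain ⟨F, hF, hF'⟩ := hH {x, y, z, x', y', z'}
    rw [← hF' z (by simp), ← hF' z' (by simp)]
    rw [← hF' x (by simp), ← hF' x' (by simp)] at h1
    rw [← hF' y (by simp), ← hF' y' (by simp)] at h2
    exact (hh F).mul x (hF (by simp)) y (hF (by simp)) z (hF (by simp)) x' (hF (by simp)) y'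
      (hF (by simp)) z' (hF (by simp)) h1 h2 h3 h4

/-- For a group structure, the existence of a good colouring of `M` with finitely many colours
is the existence of a normal subgroup of finite index avoiding `a`. -/
theorem exists_good_iff {M : Type v} [G : Group M] [groupSignature.Structure M]
    (hM : Interprets M) (a : M) :
    (∃ (n : ℕ) (H : M → Fin n), Good a Set.univ H) ↔
      ∃ N : Subgroup M, N.Normal ∧ N.FiniteIndex ∧ a ∉ N := by
  have hone : mone M = 1 := hM.one
  have hmul : ∀ x y : M, mmul x y = x * y := hM.mul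
  constructor
  · rintro ⟨n, H, hH⟩
    have hH' : ∀ x y x' y' : M, H x = H x' → H y = H y' → H (x * y) = H (x' * y') := by
      intro x y x' y' h1 h2
      exact hH.mul x trivial y trivial _ trivial x' trivial y' trivial _ trivial h1 h2
        (hmul _ _) (hmul _ _)
    let N : Subgroup M :=
      { carrier := {x | H x = H 1}
        one_mem' := rfl
        mul_mem' := by
          intro x y hx hy
          have := hH' x y 1 1 hx hy
          rwa [mul_one] at this
        inv_mem' := by
          intro x hx
          have := hH' x⁻¹ x x⁻¹ 1 rfl hx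
          rw [inv_mul_cancel, mul_one] at this
          exact this.symm }
    have hN : ∀ x, x ∈ N ↔ H x = H 1 := fun x => Iff.rfl
    refine ⟨N, ⟨fun x hx g => ?_⟩, ?_, ?_⟩
    · have h1 := hH' (g * x) g⁻¹ (g * 1) g⁻¹ (hH' g x g 1 rfl hx) rfl
      rw [mul_one, mul_inv_cancel] at h1
      exact h1
    · have hinj : Function.Injective (fun q : M ⧸ N => Quotient.lift
          (s := QuotientGroup.leftRel N) H (fun x y h => by
            have h' : x⁻¹ * y ∈ N := QuotientGroup.leftRel_apply.1 h
            have := hH' x (x⁻¹ * y) x 1 rfl h'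
            rw [mul_inv_cancel_left, mul_one] at this
            exact this.symm) q) := by
        intro p q
        induction p using Quotient.inductionOn with | _ p => ?_
        induction q using Quotient.inductionOn with | _ q => ?_
        intro h
        have h' : H p = H q := h
        refine Quotient.sound ?_
        refine QuotientGroup.leftRel_apply.2 ?_
        rw [hN]
        have := hH' p⁻¹ q p⁻¹ p rfl h'.symm
        rwa [inv_mul_cancel] at this
      have : Finite (M ⧸ N) := Finite.of_injective _ hinj
      exact Subgroup.finiteIndex_of_finite_quotient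
    · intro ha
      exact hH.sep a trivial (mone M) trivial (by rw [hone]; exact ha) ⟨rfl, rfl⟩
  · rintro ⟨N, hN, hI, haN⟩
    obtain ⟨n, ⟨e⟩⟩ := Finite.exists_equiv_fin (M ⧸ N)
    have he : ∀ x y : M, e (x : M ⧸ N) = e (y : M ⧸ N) ↔ (x : M ⧸ N) = (y : M ⧸ N) :=
      fun x y => e.injective.eq_iff
    refine ⟨n, fun x => e (x : M ⧸ N), ?_, ?_⟩
    · rintro x _ y _ h ⟨rfl, rfl⟩
      rw [he, hone] at h
      refine haN ?_
      rw [eq_comm, QuotientGroup.eq] at h
      simpa using h
    · intro x _ y _ z _ x' _ y' _ z' _ h1 h2 h3 h4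
      rw [hmul] at h3 h4
      subst h3 h4
      rw [he] at h1 h2 ⊢
      rw [QuotientGroup.mk_mul, QuotientGroup.mk_mul, h1, h2]

theorem theSentence_holds_iff (M : Type v) [groupSignature.Structure M] :
    InfSentence.Holds theSentence M ↔
      (∀ x y z : M, mmul (mmul x y) z = mmul x (mmul y z) ∧
        mmul (mone M) x = x ∧ mmul (minv x) x = mone M) ∧
      ∀ a : M, a = mone M ∨ ∃ (n : ℕ) (H : M → Fin n), Good a Set.univ H := by
  unfold InfSentence.Holds theSentence groupAxioms
  simp only [realize_and, realize_all, realize_or, realize_equal, realize_var', Sum.elim_inr,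
    realize_tone, realize_tinv, realize_tmul, realize_disj, realize_conj]
  refine and_congr ?_ ?_
  · constructor
    · intro h x y z
      exact h ![x, y, z]
    · intro h t
      exact h (t 0) (t 1) (t 2)
  · constructor
    · intro h a
      refine (h ![a]).imp id ?_
      rintro ⟨n, hn⟩
      exact ⟨n, exists_good a (exists_good_finite a _ rfl hn)⟩
    · intro h t
      refine (h (t 0)).imp id ?_
      rintro ⟨n, H, hH⟩
      exact ⟨n, fun k x => ⟨fun i => H (x i), realize_goodColouring_of (t 0) H hH k x _ rfl⟩⟩

theorem main :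
    ∃ φ : InfSentence.{0} groupSignature, φ.IsOmega1Omega ∧
      ∀ (M : Type v) [groupSignature.Structure M],
        φ.Holds M ↔ ∃ _ : Group M, Interprets M ∧ ResiduallyFinite M := by
  refine ⟨theSentence, theSentence_om, fun M _ => ?_⟩
  rw [theSentence_holds_iff]
  constructor
  · rintro ⟨hax, hres⟩
    let _ : One M := ⟨mone M⟩
    let _ : Mul M := ⟨mmul⟩
    let _ : Inv M := ⟨minv⟩
    let G : Group M := Group.ofLeftAxioms (fun x y z => (hax x y z).1) (fun x => (hax x x x).2.1)
      (fun x => (hax x x x).2.2)
    have hI : @Interprets M G _ :=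
      { one := rfl, inv := fun _ => rfl, mul := fun _ _ => rfl }
    refine ⟨G, hI, fun a ha => ?_⟩
    exact (exists_good_iff hI a).1 ((hres a).resolve_left ha)
  · rintro ⟨G, hM, hres⟩
    have hone : mone M = 1 := hM.one
    have hinv : ∀ x : M, minv x = x⁻¹ := hM.inv
    have hmul : ∀ x y : M, mmul x y = x * y := hM.mul
    refine ⟨fun x y z => ?_, fun a => ?_⟩
    · simp only [hone, hinv, hmul]
      exact ⟨mul_assoc _ _ _, one_mul _, inv_mul_cancel _⟩
    · by_cases ha : a = mone M
      · exact Or.inl ha
      · exact Or.inr ((exists_good_iff hM a).2 (hres a (by rwa [hone] at ha)))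

end Pool.Agent.Helper84.RFGroups
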