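import Pool.Agent.Helper84.InfLogic

/-! The signature of rings and residually finite rings. -/

namespace Pool.Agent.Helper84.RFRings

open FirstOrder

universe v

/-- The operation symbols `0`, `-`, `+`, `·` of the signature of rings, with their arities. -/
inductive RingOp : ℕ → Type
  | zero : RingOp 0
  | neg : RingOp 1
  | add : RingOp 2
  | mul : RingOp 2

/-- The signature `{+, -, ·, 0}` of rings (no relation symbols besides equality). -/
abbrev ringSignature : FirstOrder.Language.{0, 0} where
  Functions := RingOp
  Relations := fun _ => Empty

/-- The structure `M` of the signature of rings has the operations of the given (associative, not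
necessarily unital) ring structure on `M`. -/
structure Interprets (M : Type v) [NonUnitalRing M] [ringSignature.Structure M] : Prop where
  zero : Language.Structure.funMap (L := ringSignature) RingOp.zero ![] = (0 : M)
  neg : ∀ x : M, Language.Structure.funMap (L := ringSignature) RingOp.neg ![x] = -x
  add : ∀ x y : M, Language.Structure.funMap (L := ringSignature) RingOp.add ![x, y] = x + y
  mul : ∀ x y : M, Language.Structure.funMap (L := ringSignature) RingOp.mul ![x, y] = x * y

/-- A ring `R` is residually finite: for every nonzero `a` there is a two-sided ideal `I` of `R`
with `R/I` finite and `a ∉ I`. -/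
def ResiduallyFinite (R : Type v) [NonUnitalRing R] : Prop :=
  ∀ a : R, a ≠ 0 → ∃ I : TwoSidedIdeal R, Finite I.ringCon.Quotient ∧ a ∉ I

end Pool.Agent.Helper84.RFRings
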