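import Pool.Agent.Helper84.InfLogicComb
import Pool.Agent.Helper84.RFRingsDefs

/-! Proof that residually finite rings are axiomatised by a sentence of `L_{ω₁,ω}`. -/

namespace Pool.Agent.Helper84.RFRings

open FirstOrder Pool.Agent.Helper84 Pool.Agent.Helper84.InfFormula

universe v

section formula

variable {α : Type}

def tz : ringSignature.Term α := Language.Term.func (L := ringSignature) RingOp.zero ![]
def tneg (s : ringSignature.Term α) : ringSignature.Term α :=
  Language.Term.func (L := ringSignature) RingOp.neg ![s]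
def tadd (s t : ringSignature.Term α) : ringSignature.Term α :=
  Language.Term.func (L := ringSignature) RingOp.add ![s, t]
def tmul (s t : ringSignature.Term α) : ringSignature.Term α :=
  Language.Term.func (L := ringSignature) RingOp.mul ![s, t]

variable (M : Type v) [ringSignature.Structure M]

def mz : M := Language.Structure.funMap (L := ringSignature) RingOp.zero ![]
variable {M}
def mneg (x : M) : M := Language.Structure.funMap (L := ringSignature) RingOp.neg ![x]
def madd (x y : M) : M := Language.Structure.funMap (L := ringSignature) RingOp.add ![x, y]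
def mmul (x y : M) : M := Language.Structure.funMap (L := ringSignature) RingOp.mul ![x, y]

@[simp] theorem realize_var' (s : α → M) (x : α) :
    (Language.Term.var x : ringSignature.Term α).realize s = s x := rfl

@[simp] theorem realize_tz (s : α → M) : (tz (α := α)).realize s = mz M := by
  unfold tz mz
  rw [Language.Term.realize_func]
  congr 1
  exact Subsingleton.elim _ _

@[simp] theorem realize_tneg (s : α → M) (t : ringSignature.Term α) :
    (tneg t).realize s = mneg (t.realize s) := by
  unfold tneg mneg
  rw [Language.Term.realize_func]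
  congr 1
  funext i
  fin_cases i
  rfl

@[simp] theorem realize_tadd (s : α → M) (t t' : ringSignature.Term α) :
    (tadd t t').realize s = madd (t.realize s) (t'.realize s) := by
  unfold tadd madd
  rw [Language.Term.realize_func]
  congr 1
  funext i
  fin_cases i <;> rfl

@[simp] theorem realize_tmul (s : α → M) (t t' : ringSignature.Term α) :
    (tmul t t').realize s = mmul (t.realize s) (t'.realize s) := by
  unfold tmul mmul
  rw [Language.Term.realize_func]
  congr 1
  funext i
  fin_cases i <;> rfl

end formula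

/-- The ring axioms. -/
def ringAxioms : InfSentence.{0} ringSignature :=
  let x : ringSignature.Term (PEmpty.{1} ⊕ Fin 3) := Language.Term.var (Sum.inr 0)
  let y : ringSignature.Term (PEmpty.{1} ⊕ Fin 3) := Language.Term.var (Sum.inr 1)
  let z : ringSignature.Term (PEmpty.{1} ⊕ Fin 3) := Language.Term.var (Sum.inr 2)
  .all (Fin 3) <|
    and (.equal (tadd (tadd x y) z) (tadd x (tadd y z))) <|
    and (.equal (tadd x y) (tadd y x)) <|
    and (.equal (tadd tz x) x) <|
    and (.equal (tadd (tneg x) x) tz) <|
    and (.equal (tmul (tmul x y) z) (tmul x (tmul y z))) <|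
    and (.equal (tmul x (tadd y z)) (tadd (tmul x y) (tmul x z)))
      (.equal (tmul (tadd x y) z) (tadd (tmul x z) (tmul y z)))

/-- The `n`-colouring `h` of the variables `x₀, …, x_{k-1}` is a partial congruence which
separates the variable `a` from zero. -/
def goodColouring (n k : ℕ) (h : Fin k → Fin n) :
    InfFormula.{0} ringSignature ((PEmpty.{1} ⊕ Fin 1) ⊕ Fin k) :=
  let a : ringSignature.Term ((PEmpty.{1} ⊕ Fin 1) ⊕ Fin k) :=
    Language.Term.var (Sum.inl (Sum.inr 0))
  let x : Fin k → ringSignature.Term ((PEmpty.{1} ⊕ Fin 1) ⊕ Fin k) :=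
    fun i => Language.Term.var (Sum.inr i)
  and
    (.conj (Fin k × Fin k) fun p =>
      and (imp (.equal (x p.1) (x p.2)) (lift (h p.1 = h p.2)))
        (imp (lift (h p.1 = h p.2)) (.not (and (.equal (x p.1) a) (.equal (x p.2) tz)))))
    (.conj ((Fin k × Fin k × Fin k) × (Fin k × Fin k × Fin k)) fun p =>
      imp (lift (h p.1.1 = h p.2.1 ∧ h p.1.2.1 = h p.2.2.1))
        (and
          (imp (and (.equal (tadd (x p.1.1) (x p.1.2.1)) (x p.1.2.2))
            (.equal (tadd (x p.2.1) (x p.2.2.1)) (x p.2.2.2))) (lift (h p.1.2.2 = h p.2.2.2)))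
          (imp (and (.equal (tmul (x p.1.1) (x p.1.2.1)) (x p.1.2.2))
            (.equal (tmul (x p.2.1) (x p.2.2.1)) (x p.2.2.2))) (lift (h p.1.2.2 = h p.2.2.2)))))

/-- The sentence axiomatising residually finite rings. -/
def theSentence : InfSentence.{0} ringSignature :=
  and ringAxioms <|
    .all (Fin 1) <|
      or (.equal (Language.Term.var (Sum.inr 0)) tz) <|
        .disj ℕ fun n => .conj ℕ fun k => .all (Fin k) <| .disj (Fin k → Fin n) fun h =>
          goodColouring n k h

theorem theSentence_om : IsOmega1Omega theSentence := by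
  have h1 : ∀ (n k : ℕ), Countable (Fin k → Fin n) := fun n k => inferInstance
  have h2 : ∀ k : ℕ, Countable (Fin k × Fin k) := fun k => inferInstance
  simp only [theSentence, ringAxioms, goodColouring, h1, h2, om_all, om_and, om_or, om_conj,
    om_disj, om_imp, om_lift, om_not, om_equal, and_true, true_and, implies_true]
  refine ⟨inferInstance, inferInstance, inferInstance, fun n => ⟨inferInstance, fun k =>
    ⟨inferInstance, inferInstance⟩⟩⟩

/-- Being a good colouring of all of `M`. -/
structure Good {M : Type v} [ringSignature.Structure M] (a : M) {n : ℕ} (S : Set M)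
    (H : M → Fin n) : Prop where
  sep : ∀ x ∈ S, ∀ y ∈ S, H x = H y → ¬ (x = a ∧ y = mz M)
  add : ∀ x ∈ S, ∀ y ∈ S, ∀ z ∈ S, ∀ x' ∈ S, ∀ y' ∈ S, ∀ z' ∈ S, H x = H x' → H y = H y' →
    madd x y = z → madd x' y' = z' → H z = H z'
  mul : ∀ x ∈ S, ∀ y ∈ S, ∀ z ∈ S, ∀ x' ∈ S, ∀ y' ∈ S, ∀ z' ∈ S, H x = H x' → H y = H y' →
    mmul x y = z → mmul x' y' = z' → H z = H z'

theorem realize_goodColouring_of {M : Type v} [ringSignature.Structure M] (a : M) {n : ℕ}
    (H : M → Fin n) (hH : Good a Set.univ H) (k : ℕ) (x : Fin k → M) (s : PEmpty ⊕ Fin 1 → M)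
    (hs : s (Sum.inr 0) = a) :
    Realize M (goodColouring n k fun i => H (x i)) (Sum.elim s x) := by
  simp only [goodColouring, realize_and, realize_conj, realize_imp, realize_equal, realize_var',
    Sum.elim_inr, Sum.elim_inl, realize_lift, realize_not, realize_tz, realize_tadd, realize_tmul]
  refine ⟨fun p => ⟨fun h => by rw [h], fun h => ?_⟩, fun p hp => ⟨fun h => ?_, fun h => ?_⟩⟩
  · rw [hs]
    exact hH.sep _ trivial _ trivial h
  · exact hH.add _ trivial _ trivial _ trivial _ trivial _ trivial _ trivial hp.1 hp.2 h.1 h.2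
  · exact hH.mul _ trivial _ trivial _ trivial _ trivial _ trivial _ trivial hp.1 hp.2 h.1 h.2

theorem exists_good_finite {M : Type v} [ringSignature.Structure M] (a : M) {n : ℕ}
    (s : PEmpty ⊕ Fin 1 → M) (hs : s (Sum.inr 0) = a)
    (h : ∀ (k : ℕ) (x : Fin k → M), ∃ h : Fin k → Fin n,
      Realize M (goodColouring n k h) (Sum.elim s x)) (F : Finset M) :
    ∃ H : M → Fin n, Good a (F : Set M) H := by
  classical
  obtain ⟨g, hg⟩ := h (F.card + 1) (fun i => if hi : (i : ℕ) < F.card then
    (F.equivFin.symm ⟨i, hi⟩ : M) else a)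
  set x : Fin (F.card + 1) → M := (fun i => if hi : (i : ℕ) < F.card then
    (F.equivFin.symm ⟨i, hi⟩ : M) else a) with hx
  have hx' : ∀ y ∈ F, ∃ i, x i = y := by
    intro y hy
    refine ⟨⟨F.equivFin ⟨y, hy⟩, ?_⟩, ?_⟩
    · have := (F.equivFin ⟨y, hy⟩).2
      omega
    · simp [hx]
  choose! idx hidx using hx'
  refine ⟨fun y => g (idx y), ?_⟩
  simp only [goodColouring, realize_and, realize_conj, realize_imp, realize_equal, realize_var',
    Sum.elim_inr, Sum.elim_inl, realize_lift, realize_not, realize_tz, realize_tadd, realize_tmul,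
    hs] at hg
  obtain ⟨hg1, hg2⟩ := hg
  refine ⟨?_, ?_, ?_⟩
  · intro y hy z hz hyz hc
    have := (hg1 (idx y, idx z)).2 hyz
    simp only [hidx y hy, hidx z hz] at this
    exact this hc
  · intro y hy z hz w hw y' hy' z' hz' w' hw' h1 h2 h3 h4
    have := (hg2 ((idx y, idx z, idx w), (idx y', idx z', idx w')) ⟨h1, h2⟩).1
    simp only [hidx y hy, hidx z hz, hidx w hw, hidx y' hy', hidx z' hz', hidx w' hw'] at this
    exact this ⟨h3, h4⟩
  · intro y hy z hz w hw y' hy' z' hz' w' hw' h1 h2 h3 h4
    have := (hg2 ((idx y, idx z, idx w), (idx y', idx z', idx w')) ⟨h1, h2⟩).2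
    simp only [hidx y hy, hidx z hz, hidx w hw, hidx y' hy', hidx z' hz', hidx w' hw'] at this
    exact this ⟨h3, h4⟩

theorem exists_good {M : Type v} [ringSignature.Structure M] (a : M) {n : ℕ}
    (h : ∀ F : Finset M, ∃ H : M → Fin n, Good a (F : Set M) H) :
    ∃ H : M → Fin n, Good a Set.univ H := by
  classical
  choose h hh using h
  obtain ⟨H, hH⟩ := exists_limit_colouring h
  refine ⟨H, ?_, ?_, ?_⟩
  · intro x _ y _ hxy
    obtain ⟨F, hF, hF'⟩ := hH {x, y}
    refine (hh F).sep x (hF (by simp)) y (hF (by simp)) ?_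
    rw [hF' x (by simp), hF' y (by simp), hxy]
  · intro x _ y _ z _ x' _ y' _ z' _ h1 h2 h3 h4
    obtain ⟨F, hF, hF'⟩ := hH {x, y, z, x', y', z'}
    rw [← hF' z (by simp), ← hF' z' (by simp)]
    rw [← hF' x (by simp), ← hF' x' (by simp)] at h1
    rw [← hF' y (by simp), ← hF' y' (by simp)] at h2
    exact (hh F).add x (hF (by simp)) y (hF (by simp)) z (hF (by simp)) x' (hF (by simp)) y'
      (hF (by simp)) z' (hF (by simp)) h1 h2 h3 h4
  · intro x _ y _ z _ x' _ y' _ z' _ h1 h2 h3 h4
    obtain ⟨F, hF, hF'⟩ := hH {x, y, z, x', y', z'}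
    rw [← hF' z (by simp), ← hF' z' (by simp)]
    rw [← hF' x (by simp), ← hF' x' (by simp)] at h1
    rw [← hF' y (by simp), ← hF' y' (by simp)] at h2
    exact (hh F).mul x (hF (by simp)) y (hF (by simp)) z (hF (by simp)) x' (hF (by simp)) y'
      (hF (by simp)) z' (hF (by simp)) h1 h2 h3 h4

/-- For a ring structure, the existence of a good colouring of `M` with finitely many colours
is the existence of a two-sided ideal of finite index avoiding `a`. -/
theorem exists_good_iff {M : Type v} [R : NonUnitalRing M] [ringSignature.Structure M]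
    (hM : Interprets M) (a : M) :
    (∃ (n : ℕ) (H : M → Fin n), Good a Set.univ H) ↔
      ∃ I : TwoSidedIdeal M, Finite I.ringCon.Quotient ∧ a ∉ I := by
  have hz : mz M = 0 := hM.zero
  have hadd : ∀ x y : M, madd x y = x + y := hM.add
  have hmul : ∀ x y : M, mmul x y = x * y := hM.mul
  constructor
  · rintro ⟨n, H, hH⟩
    let C : RingCon M :=
      { toSetoid := Setoid.ker H
        add' := by
          intro w x y z h1 h2
          exact hH.add _ trivial _ trivial _ trivial _ trivial _ trivial _ trivial h1 h2
            (hadd _ _) (hadd _ _)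
        mul' := by
          intro w x y z h1 h2
          exact hH.mul _ trivial _ trivial _ trivial _ trivial _ trivial _ trivial h1 h2
            (hmul _ _) (hmul _ _) }
    refine ⟨⟨C⟩, ?_, ?_⟩
    · have : Function.Injective (fun q : C.Quotient => Quotient.lift (s := C.toSetoid) H
          (fun _ _ h => h) q) := by
        intro p q
        induction p using Quotient.inductionOn with | _ p => ?_
        induction q using Quotient.inductionOn with | _ q => ?_
        intro h
        exact Quotient.sound h
      exact Finite.of_injective _ this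
    · intro ha
      rw [TwoSidedIdeal.mem_iff] at ha
      exact hH.sep a trivial (mz M) trivial (by rw [hz]; exact ha) ⟨rfl, rfl⟩
  · rintro ⟨I, hI, haI⟩
    obtain ⟨n, ⟨e⟩⟩ := Finite.exists_equiv_fin I.ringCon.Quotient
    have he : ∀ x y : M, e (x : I.ringCon.Quotient) = e (y : I.ringCon.Quotient) ↔
        I.ringCon x y := fun x y => by
      rw [e.injective.eq_iff]
      exact RingCon.eq _
    refine ⟨n, fun x => e (x : I.ringCon.Quotient), ?_, ?_, ?_⟩
    · rintro x _ y _ h ⟨rfl, rfl⟩
      rw [he, hz] at h
      exact haI ((TwoSidedIdeal.mem_iff I x).2 h)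
    · intro x _ y _ z _ x' _ y' _ z' _ h1 h2 h3 h4
      rw [hadd] at h3 h4
      subst h3 h4
      rw [he] at h1 h2 ⊢
      exact I.ringCon.add h1 h2
    · intro x _ y _ z _ x' _ y' _ z' _ h1 h2 h3 h4
      rw [hmul] at h3 h4
      subst h3 h4
      rw [he] at h1 h2 ⊢
      exact I.ringCon.mul h1 h2

theorem theSentence_holds_iff (M : Type v) [ringSignature.Structure M] :
    InfSentence.Holds theSentence M ↔
      (∀ x y z : M, madd (madd x y) z = madd x (madd y z) ∧ madd x y = madd y x ∧
        madd (mz M) x = x ∧ madd (mneg x) x = mz M ∧ mmul (mmul x y) z = mmul x (mmul y z) ∧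
        mmul x (madd y z) = madd (mmul x y) (mmul x z) ∧
        mmul (madd x y) z = madd (mmul x z) (mmul y z)) ∧
      ∀ a : M, a = mz M ∨ ∃ (n : ℕ) (H : M → Fin n), Good a Set.univ H := by
  unfold InfSentence.Holds theSentence ringAxioms
  simp only [realize_and, realize_all, realize_or, realize_equal, realize_var', Sum.elim_inr,
    realize_tz, realize_tneg, realize_tadd, realize_tmul, realize_disj,
    realize_conj]
  refine and_congr ?_ ?_
  · constructor
    · intro h x y z
      exact h ![x, y, z]
    · intro h t
      exact h (t 0) (t 1) (t 2)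
  · constructor
    · intro h a
      refine (h ![a]).imp id ?_
      rintro ⟨n, hn⟩
      exact ⟨n, exists_good a (exists_good_finite a _ rfl hn)⟩
    · intro h t
      refine (h (t 0)).imp id ?_
      rintro ⟨n, H, hH⟩
      exact ⟨n, fun k x => ⟨fun i => H (x i), realize_goodColouring_of (t 0) H hH k x _ rfl⟩⟩

theorem main :
    ∃ φ : InfSentence.{0} ringSignature, φ.IsOmega1Omega ∧
      ∀ (M : Type v) [ringSignature.Structure M],
        φ.Holds M ↔ ∃ _ : NonUnitalRing M, Interprets M ∧ ResiduallyFinite M := by
  refine ⟨theSentence, theSentence_om, fun M _ => ?_⟩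
  rw [theSentence_holds_iff]
  constructor
  · rintro ⟨hax, hres⟩
    let _ : Zero M := ⟨mz M⟩
    let _ : Add M := ⟨madd⟩
    let _ : Neg M := ⟨mneg⟩
    let R : NonUnitalRing M :=
      { add := madd
        zero := mz M
        neg := mneg
        mul := mmul
        add_assoc := fun x y z => (hax x y z).1
        zero_add := fun x => (hax x x x).2.2.1
        add_zero := fun x => by
          change madd x (mz M) = x
          rw [(hax x (mz M) x).2.1]
          exact (hax x x x).2.2.1
        add_comm := fun x y => (hax x y y).2.1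
        neg_add_cancel := fun x => (hax x x x).2.2.2.1
        nsmul := nsmulRec
        zsmul := zsmulRec
        mul_assoc := fun x y z => (hax x y z).2.2.2.2.1
        left_distrib := fun x y z => (hax x y z).2.2.2.2.2.1
        right_distrib := fun x y z => (hax x y z).2.2.2.2.2.2
        zero_mul := fun x => by
          change mmul (mz M) x = mz M
          have h1 : mmul (mz M) x = madd (mmul (mz M) x) (mmul (mz M) x) := by
            conv_lhs => rw [← (hax (mz M) x x).2.2.1]
            exact (hax (mz M) (mz M) x).2.2.2.2.2.2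
          have h2 := congrArg (madd (mneg (mmul (mz M) x))) h1
          rw [← (hax _ _ _).1, (hax (mmul (mz M) x) x x).2.2.2.1, (hax _ x x).2.2.1] at h2
          exact h2.symm
        mul_zero := fun x => by
          change mmul x (mz M) = mz M
          have h1 : mmul x (mz M) = madd (mmul x (mz M)) (mmul x (mz M)) := by
            conv_lhs => rw [← (hax (mz M) x x).2.2.1]
            exact (hax x (mz M) (mz M)).2.2.2.2.2.1
          have h2 := congrArg (madd (mneg (mmul x (mz M)))) h1
          rw [← (hax _ _ _).1, (hax (mmul x (mz M)) x x).2.2.2.1, (hax _ x x).2.2.1] at h2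
          exact h2.symm }
    have hI : @Interprets M R _ :=
      { zero := rfl, neg := fun _ => rfl, add := fun _ _ => rfl, mul := fun _ _ => rfl }
    refine ⟨R, hI, fun a ha => ?_⟩
    exact (exists_good_iff hI a).1 ((hres a).resolve_left ha)
  · rintro ⟨R, hM, hres⟩
    have hz : mz M = 0 := hM.zero
    have hneg : ∀ x : M, mneg x = -x := hM.neg
    have hadd : ∀ x y : M, madd x y = x + y := hM.add
    have hmul : ∀ x y : M, mmul x y = x * y := hM.mul
    refine ⟨fun x y z => ?_, fun a => ?_⟩
    · simp only [hz, hneg, hadd, hmul]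
      exact ⟨add_assoc _ _ _, add_comm _ _, zero_add _, neg_add_cancel _, mul_assoc _ _ _,
        mul_add _ _ _, add_mul _ _ _⟩
    · by_cases ha : a = mz M
      · exact Or.inl ha
      · exact Or.inr ((exists_good_iff hM a).2 (hres a (by rwa [hz] at ha)))

end Pool.Agent.Helper84.RFRings
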