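import Pool.Agent.Helper84.TilesProc

/-!
Discretisation of concentration assignments: with `K` tile types there are only
`O_K(q ^ (K-1))` cells of mutually `K ^ 2 / q`-close concentration assignments.
-/

namespace Pool.Agent.Helper84.Tiles

open scoped ENNReal NNReal

universe u

/-- Products of ratios. -/
theorem ratio_close (g g' : ℕ → ℝ) (hg : ∀ i, 0 ≤ g i) (hg' : ∀ i, 0 ≤ g' i)
    (m : ℕ) (hm : ∀ i < m, g i ≤ g (i + 1)) (hm' : ∀ i < m, g' i ≤ g' (i + 1))
    (κ : ℝ) (hκ : ∀ i < m, |g i / g (i + 1) - g' i / g' (i + 1)| ≤ κ) (n : ℕ) :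
    ∀ t, t + n ≤ m → g (t + n) ≠ 0 → g' (t + n) ≠ 0 →
      |g t / g (t + n) - g' t / g' (t + n)| ≤ n * κ := by
  have hratio : ∀ (h : ℕ → ℝ), (∀ i, 0 ≤ h i) → (∀ i < m, h i ≤ h (i + 1)) → ∀ n t, t + n ≤ m →
      h (t + n) ≠ 0 → 0 ≤ h t / h (t + n) ∧ h t / h (t + n) ≤ 1 := by
    intro h hh hmono n
    induction n with
    | zero =>
      intro t _ h0
      simp only [add_zero] at h0 ⊢
      rw [div_self h0]
      exact ⟨zero_le_one, le_rfl⟩
    | succ n ih =>
      intro t ht h0
      refine ⟨div_nonneg (hh _) (hh _), ?_⟩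
      have hpos : 0 < h (t + (n + 1)) := lt_of_le_of_ne (hh _) (Ne.symm h0)
      rw [div_le_one hpos]
      have h1 := ih (t + 1) (by omega) (by rwa [show t + 1 + n = t + (n + 1) by omega])
      rw [show t + 1 + n = t + (n + 1) by omega, div_le_one hpos] at h1
      exact (hmono t (by omega)).trans h1.2
  induction n with
  | zero =>
    intro t _ h0 h0'
    simp only [add_zero] at h0 h0' ⊢
    rw [div_self h0, div_self h0']
    simp
  | succ n ih =>
    intro t ht h0 h0'
    have e1 : t + (n + 1) = t + 1 + n := by omega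
    have key : ∀ (h : ℕ → ℝ), (∀ i, 0 ≤ h i) → (∀ i < m, h i ≤ h (i + 1)) →
        h t / h (t + (n + 1)) = (h t / h (t + 1)) * (h (t + 1) / h (t + 1 + n)) := by
      intro h hh hmono
      rw [e1]
      by_cases hz : h (t + 1) = 0
      · have : h t = 0 := le_antisymm (hz ▸ hmono t (by omega)) (hh t)
        simp [hz, this]
      · field_simp
    rw [key g hg hm, key g' hg' hm']
    have h1 := ih (t + 1) (by omega) (by rwa [← e1]) (by rwa [← e1])
    have h2 := hκ t (by omega)
    have h3 := hratio g hg hm n (t + 1) (by omega) (by rwa [← e1])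
    have h4 : 0 ≤ g' t / g' (t + 1) ∧ g' t / g' (t + 1) ≤ 1 := by
      refine ⟨div_nonneg (hg' _) (hg' _), ?_⟩
      exact div_le_one_of_le₀ (hm' t (by omega)) (hg' _)
    have h5 : (g t / g (t + 1)) * (g (t + 1) / g (t + 1 + n)) -
        (g' t / g' (t + 1)) * (g' (t + 1) / g' (t + 1 + n)) =
        (g t / g (t + 1) - g' t / g' (t + 1)) * (g (t + 1) / g (t + 1 + n)) +
        (g' t / g' (t + 1)) * (g (t + 1) / g (t + 1 + n) - g' (t + 1) / g' (t + 1 + n)) := by
      ring
    rw [h5]
    refine (abs_add_le _ _).trans ?_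
    rw [abs_mul, abs_mul, abs_of_nonneg h3.1, abs_of_nonneg h4.1]
    push_cast
    have h6 : |g t / g (t + 1) - g' t / g' (t + 1)| * (g (t + 1) / g (t + 1 + n)) ≤ κ * 1 :=
      mul_le_mul h2 h3.2 h3.1 ((abs_nonneg _).trans h2)
    have h7 : (g' t / g' (t + 1)) *
        |g (t + 1) / g (t + 1 + n) - g' (t + 1) / g' (t + 1 + n)| ≤ 1 * (n * κ) :=
      mul_le_mul h4.2 h1 (abs_nonneg _) zero_le_one
    linarith

/-- Closeness of all conditional probabilities for monotone vectors with close consecutive
ratios. -/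
theorem cond_close (m : ℕ) (g g' : Fin (m + 1) → ℝ) (hg : ∀ i, 0 ≤ g i) (hg' : ∀ i, 0 ≤ g' i)
    (hm : Monotone g) (hm' : Monotone g') (hsupp : ∀ i, g i = 0 ↔ g' i = 0)
    (κ : ℝ) (hκ0 : 0 ≤ κ)
    (hκ : ∀ i : Fin m, |g i.castSucc / g i.succ - g' i.castSucc / g' i.succ| ≤ κ)
    (S : Finset (Fin (m + 1))) (t : Fin (m + 1)) (ht : t ∈ S) :
    g t / ∑ s ∈ S, g s ≤ g' t / ∑ s ∈ S, g' s + (m + 1) ^ 2 * κ := by
  have hSne : S.Nonempty := ⟨t, ht⟩
  set j := S.max' hSne with hj
  have hjS : j ∈ S := S.max'_mem hSne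
  have hle : ∀ s ∈ S, s ≤ j := fun s hs => S.le_max' s hs
  by_cases hz : g j = 0
  · have h0 : g t = 0 := le_antisymm (hz ▸ hm (hle t ht)) (hg t)
    rw [h0, zero_div]
    have : 0 ≤ ∑ s ∈ S, g' s := Finset.sum_nonneg fun s _ => hg' s
    have := hg' t
    positivity
  · have hz' : g' j ≠ 0 := fun h => hz ((hsupp j).2 h)
    have hjpos : 0 < g j := lt_of_le_of_ne (hg _) (Ne.symm hz)
    have hjpos' : 0 < g' j := lt_of_le_of_ne (hg' _) (Ne.symm hz')
    -- extension to ℕ
    have hx : ∀ s ∈ S, |g s / g j - g' s / g' j| ≤ m * κ := by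
      intro s hs
      let G : ℕ → ℝ := fun i => if h : i < m + 1 then g ⟨i, h⟩ else 0
      let G' : ℕ → ℝ := fun i => if h : i < m + 1 then g' ⟨i, h⟩ else 0
      have hG : ∀ i (h : i < m + 1), G i = g ⟨i, h⟩ := fun i h => dif_pos h
      have hG' : ∀ i (h : i < m + 1), G' i = g' ⟨i, h⟩ := fun i h => dif_pos h
      have hsj : (s : ℕ) ≤ j := hle s hs
      have hjm : (j : ℕ) ≤ m := by have := j.2; omega
      have h1 := ratio_close G G' (fun i => by
          by_cases h : i < m + 1
          · rw [hG i h]; exact hg _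
          · exact (show G i = 0 from dif_neg h).ge) (fun i => by
          by_cases h : i < m + 1
          · rw [hG' i h]; exact hg' _
          · exact (show G' i = 0 from dif_neg h).ge) m
        (fun i hi => by
          rw [hG i (by omega), hG (i + 1) (by omega)]
          exact hm (by simp))
        (fun i hi => by
          rw [hG' i (by omega), hG' (i + 1) (by omega)]
          exact hm' (by simp)) κ
        (fun i hi => by
          rw [hG i (by omega), hG (i + 1) (by omega), hG' i (by omega), hG' (i + 1) (by omega)]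
          exact hκ ⟨i, hi⟩) ((j : ℕ) - s) s (by omega)
        (by
          rw [show (s : ℕ) + ((j : ℕ) - s) = j by omega, hG j (by omega)]
          exact hz)
        (by
          rw [show (s : ℕ) + ((j : ℕ) - s) = j by omega, hG' j (by omega)]
          exact hz')
      rw [show (s : ℕ) + ((j : ℕ) - s) = j by omega, hG j (by omega), hG' j (by omega),
        hG s (by omega), hG' s (by omega)] at h1
      refine h1.trans ?_
      gcongr
      omega
    set x : Fin (m + 1) → ℝ := fun s => g s / g j with hxdef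
    set x' : Fin (m + 1) → ℝ := fun s => g' s / g' j with hxdef'
    have hX : g t / ∑ s ∈ S, g s = x t / ∑ s ∈ S, x s := by
      rw [← Finset.sum_div]
      simp only [hxdef]
      rw [div_div_div_cancel_right₀ hz]
    have hX' : g' t / ∑ s ∈ S, g' s = x' t / ∑ s ∈ S, x' s := by
      rw [← Finset.sum_div]
      simp only [hxdef']
      rw [div_div_div_cancel_right₀ hz']
    rw [hX, hX']
    set X := ∑ s ∈ S, x s with hXdef
    set X' := ∑ s ∈ S, x' s with hXdef'
    have hx0 : ∀ s, 0 ≤ x s := fun s => div_nonneg (hg _) (hg _)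
    have hx0' : ∀ s, 0 ≤ x' s := fun s => div_nonneg (hg' _) (hg' _)
    have hX1 : 1 ≤ X := by
      have h1 : x j = 1 := div_self hz
      rw [← h1]
      exact Finset.single_le_sum (fun s _ => hx0 s) hjS
    have hX1' : 1 ≤ X' := by
      have h1 : x' j = 1 := div_self hz'
      rw [← h1]
      exact Finset.single_le_sum (fun s _ => hx0' s) hjS
    have hxt' : x' t ≤ X' := Finset.single_le_sum (fun s _ => hx0' s) ht
    have hXX : |X' - X| ≤ (m + 1) * (m * κ) := by
      rw [hXdef, hXdef', ← Finset.sum_sub_distrib]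
      refine (Finset.abs_sum_le_sum_abs _ _).trans ?_
      calc ∑ s ∈ S, |x' s - x s| ≤ ∑ s ∈ S, m * κ :=
            Finset.sum_le_sum fun s hs => by rw [abs_sub_comm]; exact hx s hs
        _ = S.card * (m * κ) := by rw [Finset.sum_const, nsmul_eq_mul]
        _ ≤ (m + 1) * (m * κ) := by
            gcongr
            have := Finset.card_le_univ S
            rw [Fintype.card_fin] at this
            exact_mod_cast this
    have hXpos : 0 < X := lt_of_lt_of_le one_pos hX1
    have hXpos' : 0 < X' := lt_of_lt_of_le one_pos hX1'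
    have e1 : x t / X = x' t / X' + ((x t - x' t) / X + (x' t / X') * ((X' - X) / X)) := by
      field_simp
      ring
    rw [e1]
    have b1 : (x t - x' t) / X ≤ m * κ := by
      calc (x t - x' t) / X ≤ |x t - x' t| / X := by gcongr; exact le_abs_self _
        _ ≤ |x t - x' t| / 1 := by gcongr
        _ ≤ m * κ := by rw [div_one]; exact hx t ht
    have b2 : (x' t / X') * ((X' - X) / X) ≤ 1 * ((m + 1) * (m * κ)) := by
      have hc : (X' - X) / X ≤ (m + 1) * (m * κ) := by
        calc (X' - X) / X ≤ |X' - X| / X := by gcongr; exact le_abs_self _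
          _ ≤ |X' - X| / 1 := by gcongr
          _ ≤ _ := by rw [div_one]; exact hXX
      have hd : x' t / X' ≤ 1 := div_le_one_of_le₀ hxt' hXpos'.le
      calc (x' t / X') * ((X' - X) / X) ≤ (x' t / X') * ((m + 1) * (m * κ)) := by
            refine mul_le_mul_of_nonneg_left hc ?_
            exact div_nonneg (hx0' t) hXpos'.le
        _ ≤ _ := by
            refine mul_le_mul_of_nonneg_right hd ?_
            positivity
    have b3 : (m : ℝ) * κ + 1 * ((m + 1) * (m * κ)) ≤ (m + 1) ^ 2 * κ := by
      nlinarith [Nat.cast_nonneg (α := ℝ) m]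
    linarith

/-- The cell of a nonnegative vector: sorting permutation, support, and the consecutive ratios
rounded to multiples of `1/q`. -/
noncomputable def cell (m q : ℕ) (f : Fin (m + 1) → ℝ≥0) :
    Equiv.Perm (Fin (m + 1)) × (Fin (m + 1) → Prop) × (Fin m → Fin (q + 1)) :=
  (Tuple.sort f, fun i => f i = 0, fun i =>
    ⟨⌊(f (Tuple.sort f i.castSucc) / f (Tuple.sort f i.succ)) * q⌋₊, by
      refine Nat.lt_succ_of_le ?_
      refine Nat.floor_le_of_le ?_
      refine mul_le_of_le_one_left (by positivity) ?_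
      refine div_le_one_of_le₀ ?_ (by positivity)
      exact Tuple.monotone_sort f (Fin.castSucc_lt_succ).le⟩)

theorem card_cells (m q : ℕ) :
    Nat.card (Equiv.Perm (Fin (m + 1)) × (Fin (m + 1) → Prop) × (Fin m → Fin (q + 1))) =
      (m + 1).factorial * (2 ^ (m + 1) * (q + 1) ^ m) := by
  classical
  rw [Nat.card_eq_fintype_card, Fintype.card_prod, Fintype.card_prod, Fintype.card_perm,
    Fintype.card_fin, Fintype.card_fun, Fintype.card_fun, Fintype.card_fin, Fintype.card_fin,
    Fintype.card_fin, Fintype.card_prop]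

theorem cell_close (m q : ℕ) (hq : 0 < q) (f f' : Fin (m + 1) → ℝ≥0)
    (h : cell m q f = cell m q f') (S : Finset (Fin (m + 1))) (t : Fin (m + 1)) (ht : t ∈ S) :
    f t / ∑ s ∈ S, f s ≤ f' t / ∑ s ∈ S, f' s + (m + 1) ^ 2 / q := by
  classical
  have h1 : Tuple.sort f = Tuple.sort f' := congrArg Prod.fst h
  have h2 : ∀ i, (f i = 0) = (f' i = 0) := fun i => congrFun (congrArg (fun p => p.2.1) h) i
  have h3 : ∀ i : Fin m, ⌊(f (Tuple.sort f i.castSucc) / f (Tuple.sort f i.succ)) * q⌋₊ =
      ⌊(f' (Tuple.sort f' i.castSucc) / f' (Tuple.sort f' i.succ)) * q⌋₊ := fun i => by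
    have := congrFun (congrArg (fun p => p.2.2) h) i
    simpa [cell] using this
  set σ := Tuple.sort f with hσ
  rw [← h1] at h3
  have hmono : Monotone (f ∘ σ) := Tuple.monotone_sort f
  have hmono' : Monotone (f' ∘ σ) := by rw [h1]; exact Tuple.monotone_sort f'
  have hqpos : (0 : ℝ) < q := by exact_mod_cast hq
  have key := cond_close m (fun i => (f (σ i) : ℝ)) (fun i => (f' (σ i) : ℝ))
    (fun i => NNReal.coe_nonneg _) (fun i => NNReal.coe_nonneg _)
    (fun i j hij => by exact_mod_cast hmono hij) (fun i j hij => by exact_mod_cast hmono' hij)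
    (fun i => by
      have := h2 (σ i)
      rw [NNReal.coe_eq_zero, NNReal.coe_eq_zero, this])
    (1 / q) (by positivity)
    (fun i => by
      have h4 := h3 i
      set a : ℝ≥0 := f (σ i.castSucc) / f (σ i.succ) with ha
      set b : ℝ≥0 := f' (σ i.castSucc) / f' (σ i.succ) with hb
      have ha' : ((f (σ i.castSucc) : ℝ) / (f (σ i.succ) : ℝ)) = (a : ℝ) := by
        rw [ha, NNReal.coe_div]
      have hb' : ((f' (σ i.castSucc) : ℝ) / (f' (σ i.succ) : ℝ)) = (b : ℝ) := by
        rw [hb, NNReal.coe_div]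
      rw [ha', hb']
      have f1 : ((⌊a * q⌋₊ : ℝ≥0) : ℝ) ≤ a * q := by
        have := Nat.floor_le (a := a * q) (by positivity)
        exact_mod_cast this
      have f2 : (a : ℝ) * q < ⌊a * q⌋₊ + 1 := by
        have := Nat.lt_floor_add_one (a * q)
        exact_mod_cast this
      have f3 : ((⌊b * q⌋₊ : ℝ≥0) : ℝ) ≤ b * q := by
        have := Nat.floor_le (a := b * q) (by positivity)
        exact_mod_cast this
      have f4 : (b : ℝ) * q < ⌊b * q⌋₊ + 1 := by
        have := Nat.lt_floor_add_one (b * q)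
        exact_mod_cast this
      rw [h4] at f1 f2
      simp only [NNReal.coe_natCast] at f1 f3
      rw [abs_le]
      constructor
      · rw [neg_le_iff_add_nonneg, ← sub_nonneg]
        have : 0 ≤ ((a : ℝ) - b + 1 / q) * q := by
          rw [add_mul, sub_mul, one_div, inv_mul_cancel₀ hqpos.ne']
          linarith
        have := nonneg_of_mul_nonneg_left this hqpos
        linarith
      · have : 0 ≤ (1 / q - ((a : ℝ) - b)) * q := by
          rw [sub_mul, sub_mul, one_div, inv_mul_cancel₀ hqpos.ne']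
          linarith
        have := nonneg_of_mul_nonneg_left this hqpos
        linarith)
    (S.image σ.symm) (σ.symm t) (Finset.mem_image_of_mem _ ht)
  rw [Finset.sum_image (fun a _ b _ hab => σ.symm.injective hab),
    Finset.sum_image (fun a _ b _ hab => σ.symm.injective hab)] at key
  simp only [Equiv.apply_symm_apply] at key
  have : ((f t / ∑ s ∈ S, f s : ℝ≥0) : ℝ) ≤
      ((f' t / ∑ s ∈ S, f' s + (m + 1) ^ 2 / q : ℝ≥0) : ℝ) := by
    push_cast
    rw [mul_one_div] at key
    exact key
  exact_mod_cast this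

end Pool.Agent.Helper84.Tiles
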