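import Mathlib

/-!
The abstract tile assembly model at temperature 2 with concentration programming.
-/

namespace Pool.Agent.Helper84.Tiles

open scoped ENNReal NNReal

universe u

variable {Λ : Type u}

/-- A glue: a label together with a strength. -/
structure Glue (Λ : Type u) where
  label : Λ
  strength : ℕ

/-- A tile type: a unit square each of whose four sides carries a glue. -/
structure TileType (Λ : Type u) where
  north : Glue Λ
  east : Glue Λ
  south : Glue Λ
  west : Glue Λ

/-- An assembly: a partial map from `ℤ²` to tile types. -/
abbrev Assembly (Λ : Type u) : Type u := ℤ × ℤ → Option (TileType Λ)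

/-- The domain of an assembly. -/
def Assembly.dom (α : Assembly Λ) : Set (ℤ × ℤ) := {p | α p ≠ none}

open Classical in
/-- The strength with which a tile of type `s` at a position `p` and a tile of type `t` at
the position `p + d` interact: if `d` is one of the four unit vectors and the abutting glues are
equal it is the strength of this glue, otherwise it is `0`. -/
noncomputable def bond (s t : TileType Λ) (d : ℤ × ℤ) : ℕ :=
  if d = (0, 1) ∧ s.north = t.south then s.north.strength
  else if d = (1, 0) ∧ s.east = t.west then s.east.strength
  else if d = (0, -1) ∧ s.south = t.north then s.south.strength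
  else if d = (-1, 0) ∧ s.west = t.east then s.west.strength
  else 0

/-- The strength with which the tiles of `α` at the positions `p` and `q` interact. -/
noncomputable def Assembly.bondAt (α : Assembly Λ) (p q : ℤ × ℤ) : ℕ :=
  (α p).elim 0 fun s => (α q).elim 0 fun t => bond s t (q - p)

/-- `α` is `2`-stable: every cut of its binding graph has total strength at least `2`. -/
def Assembly.Stable (α : Assembly Λ) : Prop :=
  ∀ A : Set (ℤ × ℤ), A ⊆ α.dom → A.Nonempty → (α.dom \ A).Nonempty →
    2 ≤ ∑' (p : A) (q : ↥(α.dom \ A)), (α.bondAt p q : ℝ≥0∞)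

/-- The assembly `α` with a tile of type `t` placed at the position `p`. -/
def Assembly.place (α : Assembly Λ) (p : ℤ × ℤ) (t : TileType Λ) : Assembly Λ :=
  Function.update α p (some t)

/-- A tile system (at temperature `2`): a finite set of tile types, and a seed consisting of one
tile, of a type in this set. -/
structure TileSystem (Λ : Type u) where
  tiles : Finset (TileType Λ)
  seedPos : ℤ × ℤ
  seedTile : TileType Λ
  seedTile_mem : seedTile ∈ tiles

namespace TileSystem

variable (𝒯 : TileSystem Λ)

/-- The seed assembly. -/
def seed : Assembly Λ := Assembly.place (fun _ => none) 𝒯.seedPos 𝒯.seedTile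

/-- A tile of type `t` can be added stably to `α` at the empty position `p` adjacent to `α`. -/
def Attachable (α : Assembly Λ) (p : ℤ × ℤ) (t : TileType Λ) : Prop :=
  t ∈ 𝒯.tiles ∧ α p = none ∧
    (∃ q ∈ α.dom, q - p = (0, 1) ∨ q - p = (1, 0) ∨ q - p = (0, -1) ∨ q - p = (-1, 0)) ∧
    (α.place p t).Stable

/-- The frontier of `α`. -/
def frontier (α : Assembly Λ) : Set (ℤ × ℤ) := {p | ∃ t, 𝒯.Attachable α p t}

/-- The producible assemblies. -/
inductive Producible : Assembly Λ → Prop
  | seed : Producible 𝒯.seed
  | place {α : Assembly Λ} {p : ℤ × ℤ} {t : TileType Λ} :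
      Producible α → 𝒯.Attachable α p t → Producible (α.place p t)

/-- The producible terminal assemblies. -/
abbrev TerminalAssembly : Type u := {α : Assembly Λ // 𝒯.Producible α ∧ 𝒯.frontier α = ∅}

open Classical in
/-- The probability that the step performed at the assembly `α` under the concentrations `ρ`
attaches a tile of type `t` at the position `p`: the position is chosen uniformly from the
frontier, then the type is chosen among those that can bind there, proportionally to `ρ`. -/
noncomputable def attachProb (ρ : TileType Λ → ℝ≥0) (α : Assembly Λ) (p : ℤ × ℤ)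
    (t : TileType Λ) : ℝ≥0 :=
  if 𝒯.Attachable α p t then
    ((𝒯.frontier α).ncard : ℝ≥0)⁻¹ * (ρ t / ∑ t' ∈ 𝒯.tiles with 𝒯.Attachable α p t', ρ t')
  else 0

open Classical in
/-- The probability that the step performed at `α` leads to the assembly `β`. -/
noncomputable def stepProb (ρ : TileType Λ → ℝ≥0) (α β : Assembly Λ) : ℝ≥0∞ :=
  ∑' p : ℤ × ℤ, ∑ t ∈ 𝒯.tiles, if β = α.place p t then (𝒯.attachProb ρ α p t : ℝ≥0∞) else 0

open Classical in
/-- The probability of the assembly `α`: the sum, over all sequences of assemblies from the seed
to `α`, of the products of the step probabilities. -/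
noncomputable def prob (ρ : TileType Λ → ℝ≥0) (α : Assembly Λ) : ℝ≥0∞ :=
  ∑' (k : ℕ) (s : Fin (k + 1) → Assembly Λ),
    if s 0 = 𝒯.seed ∧ s (Fin.last k) = α then
      ∏ i : Fin k, 𝒯.stepProb ρ (s i.castSucc) (s i.succ)
    else 0

open Classical in
/-- The probability that the random terminal assembly has the property `P`. -/
noncomputable def Pr (ρ : TileType Λ → ℝ≥0) (P : 𝒯.TerminalAssembly → Prop) : ℝ≥0∞ :=
  ∑' α : 𝒯.TerminalAssembly, if P α then 𝒯.prob ρ α.1 else 0

end TileSystem

end Pool.Agent.Helper84.Tiles
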