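import Pool.Agent.Helper84.TilesCells

/-! The counting argument. -/

namespace Pool.Agent.Helper84.Tiles

open scoped ENNReal NNReal
open Filter

universe u

variable {Λ : Type u} (𝒯 : TileSystem Λ)

namespace TileSystem

theorem close_of_cell {m q : ℕ} (hq : 0 < q) (e : Fin (m + 1) ≃ 𝒯.tiles)
    (ρ ρ' : TileType Λ → ℝ≥0)
    (h : cell m q (fun i => ρ (e i)) = cell m q (fun i => ρ' (e i))) :
    𝒯.Close ((m + 1) ^ 2 / q) ρ ρ' := by
  classical
  intro S hS t ht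
  have hsum : ∀ r : TileType Λ → ℝ≥0,
      ∑ i ∈ Finset.univ.filter (fun i => (e i : TileType Λ) ∈ S), r (e i) = ∑ t ∈ S, r t := by
    intro r
    refine Finset.sum_nbij (fun i => (e i : TileType Λ)) ?_ ?_ ?_ ?_
    · intro i hi
      exact (Finset.mem_filter.1 hi).2
    · intro i _ j _ hij
      exact e.injective (Subtype.ext hij)
    · intro t ht
      refine ⟨e.symm ⟨t, hS ht⟩, ?_, ?_⟩
      · simpa using ht
      · simp
    · intro i _
      rfl
  have key := cell_close m q hq (fun i => ρ (e i)) (fun i => ρ' (e i)) h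
    (Finset.univ.filter (fun i => (e i : TileType Λ) ∈ S)) (e.symm ⟨t, hS ht⟩) (by simpa using ht)
  simp only [hsum, Equiv.apply_symm_apply] at key
  exact key

/-- The key counting estimate. -/
theorem card_good_le {m : ℕ} (hm : 𝒯.tiles.card = m + 1) (δ ε : ℝ) (hδ : δ < 1 / 2)
    (hε : 0 < ε) (r : 𝒯.TerminalAssembly → ℕ) (ρ : ℕ → TileType Λ → ℝ≥0)
    (hr : ∀ n, ENNReal.ofReal (1 - δ) ≤ 𝒯.Pr (ρ n) (fun α => r α = n)) (M : ℕ) (hM : 1 ≤ M)
    (G : Finset ℕ) (hG : ∀ n ∈ G, n < M ∧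
      ENNReal.ofReal (1 - δ) ≤ 𝒯.Pr (ρ n) (fun α => (α.1.dom.ncard : ℝ) < (n : ℝ) ^ ε)) :
    (G.card : ℝ) ≤ 2 / (1 - 2 * δ) * ((m + 1).factorial * (2 ^ (m + 1) *
      ((2 * (m + 1) ^ 3 / (1 - 2 * δ) + 3) * (M : ℝ) ^ ε) ^ m)) := by
  classical
  set c : ℝ := 1 - 2 * δ with hc
  have hcpos : 0 < c := by rw [hc]; linarith
  set N : ℕ := ⌊(M : ℝ) ^ ε⌋₊ with hN
  have hMε : 1 ≤ (M : ℝ) ^ ε := Real.one_le_rpow (by exact_mod_cast hM) hε.le
  set q : ℕ := ⌈2 * (N : ℝ) * (m + 1) ^ 3 / c⌉₊ + 1 with hqdef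
  have hq : 0 < q := Nat.succ_pos _
  let E : ℕ → 𝒯.TerminalAssembly → Prop := fun n α => r α = n ∧ α.1.dom.ncard ≤ N
  have hE : ∀ n ∈ G, ENNReal.ofReal c ≤ 𝒯.Pr (ρ n) (E n) := by
    intro n hn
    obtain ⟨hnM, hsz⟩ := hG n hn
    have h1 := 𝒯.Pr_add_le (ρ n) (fun α => r α = n)
      (fun α => (α.1.dom.ncard : ℝ) < (n : ℝ) ^ ε)
    have h2 : ENNReal.ofReal (1 - δ) + ENNReal.ofReal (1 - δ) ≤
        𝒯.Pr (ρ n) (fun α => r α = n ∧ (α.1.dom.ncard : ℝ) < (n : ℝ) ^ ε) + 1 :=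
      (add_le_add (hr n) hsz).trans h1
    have h3 : ENNReal.ofReal (1 - δ) + ENNReal.ofReal (1 - δ) = ENNReal.ofReal c + 1 := by
      rw [← ENNReal.ofReal_add (by linarith) (by linarith), ← ENNReal.ofReal_one,
        ← ENNReal.ofReal_add hcpos.le zero_le_one]
      congr 1
      rw [hc]
      ring
    rw [h3] at h2
    refine ((ENNReal.add_le_add_iff_right ENNReal.one_ne_top).1 h2).trans ?_
    refine 𝒯.Pr_mono (ρ n) ?_
    rintro α ⟨hα1, hα2⟩
    refine ⟨hα1, ?_⟩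
    rw [hN]
    refine Nat.le_floor ?_
    refine hα2.le.trans ?_
    exact Real.rpow_le_rpow (by positivity) (by exact_mod_cast hnM.le) hε.le
  -- enumeration of tile types
  have e : Fin (m + 1) ≃ 𝒯.tiles := (Finset.equivFinOfCardEq hm).symm
  let key : ℕ → _ := fun n => cell m q (fun i => ρ n (e i))
  have hfib : ∀ a ∈ G.image key, ((G.filter fun n => key n = a).card) ≤ ⌊2 / c⌋₊ := by
    intro a ha
    obtain ⟨n₀, hn₀, hkn₀⟩ := Finset.mem_image.1 ha
    set F := G.filter fun n => key n = a with hF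
    have h1 : ∑ n ∈ F, 𝒯.Pr (ρ n₀) (E n) ≤ 1 :=
      𝒯.sum_Pr_le_one (ρ n₀) F E (fun i _ j _ α hi hj => hi.1.symm.trans hj.1)
    have h2 : ∀ n ∈ F, ENNReal.ofReal (c / 2) ≤ 𝒯.Pr (ρ n₀) (E n) := by
      intro n hn
      obtain ⟨hnG, hnk⟩ := Finset.mem_filter.1 hn
      have hclose : 𝒯.Close ((m + 1) ^ 2 / q) (ρ n) (ρ n₀) :=
        𝒯.close_of_cell hq e (ρ n) (ρ n₀) (hnk.trans hkn₀.symm)
      have h3 := 𝒯.Pr_le_Pr_add hclose (E n) N (fun α hα => hα.2)
      have h4 := (hE n hnG).trans h3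
      have h5 : (N : ℝ≥0∞) * (𝒯.tiles.card * (((m + 1) ^ 2 / q : ℝ≥0) : ℝ≥0∞)) ≤
          ENNReal.ofReal (c / 2) := by
        rw [hm]
        have h6 : (N : ℝ) * ((m + 1 : ℕ) * ((m + 1) ^ 2 / q)) ≤ c / 2 := by
          have hq' : 2 * (N : ℝ) * (m + 1) ^ 3 / c ≤ q := by
            rw [hqdef]
            push_cast
            have := Nat.le_ceil (2 * (N : ℝ) * (m + 1) ^ 3 / c)
            linarith
          have hqpos : (0 : ℝ) < q := by exact_mod_cast hq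
          rw [div_le_iff₀ hcpos] at hq'
          push_cast
          rw [show (N : ℝ) * ((m + 1) * ((m + 1) ^ 2 / q)) = (N * (m + 1) ^ 3) / q by ring,
            div_le_iff₀ hqpos]
          linarith
        have h7 : (N : ℝ≥0∞) * ((m + 1 : ℕ) * (((m + 1) ^ 2 / q : ℝ≥0) : ℝ≥0∞)) =
            ENNReal.ofReal ((N : ℝ) * ((m + 1 : ℕ) * ((m + 1) ^ 2 / q))) := by
          rw [ENNReal.ofReal_mul (by positivity), ENNReal.ofReal_mul (by positivity),
            ENNReal.ofReal_natCast, ENNReal.ofReal_natCast]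
          congr 2
          rw [ENNReal.ofReal]
          congr 1
          apply NNReal.coe_injective
          rw [Real.coe_toNNReal _ (by positivity)]
          push_cast
          rfl
        rw [h7]
        exact ENNReal.ofReal_le_ofReal h6
      have h8 : ENNReal.ofReal (c / 2) + ENNReal.ofReal (c / 2) ≤
          𝒯.Pr (ρ n₀) (E n) + ENNReal.ofReal (c / 2) := by
        rw [← ENNReal.ofReal_add (by positivity) (by positivity), add_halves]
        exact h4.trans (by gcongr)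
      exact (ENNReal.add_le_add_iff_right ENNReal.ofReal_ne_top).1 h8
    have h9 : (F.card : ℝ≥0∞) * ENNReal.ofReal (c / 2) ≤ 1 := by
      rw [← nsmul_eq_mul, ← Finset.sum_const]
      exact (Finset.sum_le_sum h2).trans h1
    have h10 : (F.card : ℝ) * (c / 2) ≤ 1 := by
      rw [← ENNReal.ofReal_natCast, ← ENNReal.ofReal_mul (by positivity),
        ← ENNReal.ofReal_one] at h9
      exact (ENNReal.ofReal_le_ofReal_iff zero_le_one).1 h9
    refine Nat.le_floor ?_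
    rw [le_div_iff₀ hcpos]
    linarith
  have hcard := Finset.card_le_mul_card_image G ⌊2 / c⌋₊ hfib
  have himg : (G.image key).card ≤ (m + 1).factorial * (2 ^ (m + 1) * (q + 1) ^ m) := by
    rw [← card_cells m q, ← Set.ncard_coe_finset]
    rw [← Set.ncard_univ]
    exact Set.ncard_le_ncard (Set.subset_univ _)
  have hq1 : ((q : ℝ) + 1) ≤ (2 * (m + 1) ^ 3 / c + 3) * (M : ℝ) ^ ε := by
    have h1 : (q : ℝ) ≤ 2 * (N : ℝ) * (m + 1) ^ 3 / c + 2 := by
      rw [hqdef]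
      push_cast
      have := (Nat.ceil_lt_add_one (a := 2 * (N : ℝ) * (m + 1) ^ 3 / c) (by positivity)).le
      linarith
    have h2 : (N : ℝ) ≤ (M : ℝ) ^ ε := Nat.floor_le (by positivity)
    have h3 : 2 * (N : ℝ) * (m + 1) ^ 3 / c ≤ 2 * (m + 1) ^ 3 / c * (M : ℝ) ^ ε := by
      rw [show 2 * (N : ℝ) * (m + 1) ^ 3 / c = 2 * (m + 1) ^ 3 / c * N by ring]
      gcongr
    linarith
  calc (G.card : ℝ) ≤ ((⌊2 / c⌋₊ * (G.image key).card : ℕ) : ℝ) := by exact_mod_cast hcard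
    _ ≤ ((⌊2 / c⌋₊ * ((m + 1).factorial * (2 ^ (m + 1) * (q + 1) ^ m)) : ℕ) : ℝ) := by
        exact_mod_cast Nat.mul_le_mul_left _ himg
    _ = (⌊2 / c⌋₊ : ℝ) * ((m + 1).factorial * (2 ^ (m + 1) * ((q : ℝ) + 1) ^ m)) := by
        push_cast
        ring
    _ ≤ 2 / c * ((m + 1).factorial * (2 ^ (m + 1) *
          ((2 * (m + 1) ^ 3 / c + 3) * (M : ℝ) ^ ε) ^ m)) := by
        have h1 : (⌊2 / c⌋₊ : ℝ) ≤ 2 / c := Nat.floor_le (by positivity)
        gcongr

theorem main (δ ε : ℝ) (hδ : δ < 1 / 2) (hε : 0 < ε) (hK : ε * (𝒯.tiles.card - 1) < 1)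
    (r : 𝒯.TerminalAssembly → ℕ) (ρ : ℕ → TileType Λ → ℝ≥0)
    (hr : ∀ n, ENNReal.ofReal (1 - δ) ≤ 𝒯.Pr (ρ n) (fun α => r α = n)) :
    Tendsto (fun M : ℕ => ({n : ℕ | n < M ∧
      𝒯.Pr (ρ n) (fun α => (α.1.dom.ncard : ℝ) < (n : ℝ) ^ ε) < ENNReal.ofReal (1 - δ)}.ncard : ℝ)
        / M) atTop (nhds 1) := by
  classical
  obtain ⟨m, hm⟩ : ∃ m, 𝒯.tiles.card = m + 1 :=
    ⟨𝒯.tiles.card - 1, by
      have := Finset.card_pos.2 ⟨_, 𝒯.seedTile_mem⟩
      omega⟩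
  have hKm : ε * m < 1 := by
    rw [hm] at hK
    push_cast at hK
    rwa [add_sub_cancel_right] at hK
  let bad : ℕ → Prop := fun n =>
    𝒯.Pr (ρ n) (fun α => (α.1.dom.ncard : ℝ) < (n : ℝ) ^ ε) < ENNReal.ofReal (1 - δ)
  let G : ℕ → Finset ℕ := fun M => (Finset.range M).filter fun n => ¬ bad n
  have hbad : ∀ M : ℕ, ({n : ℕ | n < M ∧ bad n}.ncard : ℝ) = M - (G M).card := by
    intro M
    have h1 : {n : ℕ | n < M ∧ bad n} = ((Finset.range M).filter bad : Finset ℕ) := by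
      ext n
      simp
    rw [h1, Set.ncard_coe_finset]
    have h2 := Finset.card_filter_add_card_filter_not (s := Finset.range M) bad
    rw [Finset.card_range] at h2
    rw [eq_sub_iff_add_eq]
    exact_mod_cast h2
  change Tendsto (fun M : ℕ => ({n : ℕ | n < M ∧ bad n}.ncard : ℝ) / M) atTop (nhds 1)
  set C : ℝ := 2 / (1 - 2 * δ) * ((m + 1).factorial * (2 ^ (m + 1) *
      (2 * (m + 1) ^ 3 / (1 - 2 * δ) + 3) ^ m)) with hC
  have hG : ∀ M : ℕ, 1 ≤ M → ((G M).card : ℝ) / M ≤ C * (M : ℝ) ^ (-(1 - ε * m)) := by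
    intro M hM
    have hMpos : (0 : ℝ) < M := by exact_mod_cast hM
    have h1 := 𝒯.card_good_le hm δ ε hδ hε r ρ hr M hM (G M) (by
      intro n hn
      obtain ⟨hn1, hn2⟩ := Finset.mem_filter.1 hn
      exact ⟨Finset.mem_range.1 hn1, not_lt.1 hn2⟩)
    have h2 : ((M : ℝ) ^ ε) ^ m = (M : ℝ) ^ (ε * m) := by
      rw [← Real.rpow_natCast, ← Real.rpow_mul hMpos.le]
    rw [mul_pow, h2] at h1
    have h3 : (M : ℝ) ^ (-(1 - ε * m)) = (M : ℝ) ^ (ε * m) / M := by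
      rw [neg_sub, Real.rpow_sub hMpos, Real.rpow_one]
    rw [h3, div_le_iff₀ hMpos]
    calc ((G M).card : ℝ) ≤ _ := h1
      _ = C * ((M : ℝ) ^ (ε * m) / M) * M := by
        rw [hC]
        field_simp
  have hlim : Tendsto (fun M : ℕ => C * (M : ℝ) ^ (-(1 - ε * m))) atTop (nhds 0) := by
    have h1 : Tendsto (fun M : ℕ => (M : ℝ) ^ (-(1 - ε * m))) atTop (nhds 0) :=
      (tendsto_rpow_neg_atTop (by linarith)).comp tendsto_natCast_atTop_atTop
    simpa using h1.const_mul C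
  have hlim2 : Tendsto (fun M : ℕ => ((G M).card : ℝ) / M) atTop (nhds 0) := by
    refine squeeze_zero' (Eventually.of_forall fun M => by positivity) ?_ hlim
    filter_upwards [eventually_ge_atTop 1] with M hM
    exact hG M hM
  have hlim3 : Tendsto (fun M : ℕ => 1 - ((G M).card : ℝ) / M) atTop (nhds 1) := by
    simpa using hlim2.const_sub 1
  refine hlim3.congr' ?_
  filter_upwards [eventually_ge_atTop 1] with M hM
  have hMpos : (0 : ℝ) < M := by exact_mod_cast hM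
  rw [hbad, sub_div, div_self hMpos.ne']

end TileSystem

end Pool.Agent.Helper84.Tiles
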