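import Pool.Agent.Helper84.MarkovSum
import Pool.Agent.Helper84.TilesDefs

/-!
The tile assembly process as a Markov chain; continuity of the event probabilities in the
conditional concentrations.
-/

namespace Pool.Agent.Helper84.Tiles

open scoped ENNReal NNReal
open Pool.Agent.Helper84.Markov

universe u

variable {Λ : Type u} (𝒯 : TileSystem Λ)

namespace TileSystem

/-- Two concentration assignments are `η`-close: one-sided closeness of all conditional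
probabilities. -/
def Close (η : ℝ≥0) (ρ ρ' : TileType Λ → ℝ≥0) : Prop :=
  ∀ S ⊆ 𝒯.tiles, ∀ t ∈ S, ρ t / ∑ t' ∈ S, ρ t' ≤ ρ' t / ∑ t' ∈ S, ρ' t' + η

theorem place_injOn {α : Assembly Λ} {p q : ℤ × ℤ} {t s : TileType Λ} (hp : α p = none)
    (h : α.place p t = α.place q s) : p = q ∧ t = s := by
  have h1 : (α.place p t) p = some t := by simp [Assembly.place]
  have h2 : p = q := by
    by_contra hne
    rw [h] at h1
    simp [Assembly.place, hne, hp] at h1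
  subst h2
  have h3 : (α.place p s) p = some s := by simp [Assembly.place]
  rw [h, h3] at h1
  exact ⟨rfl, (Option.some.inj h1).symm⟩

theorem tsum_stepProb_mul (ρ : TileType Λ → ℝ≥0) (α : Assembly Λ) (f : Assembly Λ → ℝ≥0∞) :
    ∑' β, 𝒯.stepProb ρ α β * f β =
      ∑' p : ℤ × ℤ, ∑ t ∈ 𝒯.tiles, (𝒯.attachProb ρ α p t : ℝ≥0∞) * f (α.place p t) := by
  classical
  unfold stepProb
  simp_rw [← ENNReal.tsum_mul_right]
  rw [ENNReal.tsum_comm]
  refine tsum_congr fun p => ?_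
  simp_rw [Finset.sum_mul]
  rw [Summable.tsum_finsetSum fun _ _ => ENNReal.summable]
  refine Finset.sum_congr rfl fun t _ => ?_
  rw [tsum_eq_single (α.place p t)]
  · simp
  · intro b hb
    simp [hb]

theorem attachProb_off {ρ : TileType Λ → ℝ≥0} {α : Assembly Λ} {p : ℤ × ℤ}
    (hp : p ∉ 𝒯.frontier α) (t : TileType Λ) : 𝒯.attachProb ρ α p t = 0 := by
  unfold attachProb
  rw [if_neg]
  intro h
  exact hp ⟨t, h⟩

theorem attachProb_le {ρ ρ' : TileType Λ → ℝ≥0} {η : ℝ≥0} (h : 𝒯.Close η ρ ρ') (α : Assembly Λ)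
    (p : ℤ × ℤ) (t : TileType Λ) :
    𝒯.attachProb ρ α p t ≤ 𝒯.attachProb ρ' α p t + ((𝒯.frontier α).ncard : ℝ≥0)⁻¹ * η := by
  classical
  unfold attachProb
  split_ifs with hatt
  · rw [← mul_add]
    refine mul_le_mul_right ?_ _
    exact h _ (Finset.filter_subset _ _) t (by simp [hatt, hatt.1])
  · positivity

theorem sum_attachProb_le (ρ : TileType Λ → ℝ≥0) (α : Assembly Λ) (p : ℤ × ℤ) :
    ∑ t ∈ 𝒯.tiles, 𝒯.attachProb ρ α p t ≤ ((𝒯.frontier α).ncard : ℝ≥0)⁻¹ := by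
  classical
  unfold attachProb
  rw [← Finset.sum_filter, ← Finset.mul_sum, ← Finset.sum_div]
  refine mul_le_of_le_one_right (by positivity) ?_
  exact div_self_le_one _

theorem tsum_frontier (α : Assembly Λ) (c : ℝ≥0∞) :
    ∑' p : ℤ × ℤ, (𝒯.frontier α).indicator
      (fun _ => (((𝒯.frontier α).ncard : ℝ≥0)⁻¹ : ℝ≥0) * c) p ≤ c := by
  classical
  by_cases hfin : (𝒯.frontier α).Finite
  · rw [tsum_eq_sum (s := hfin.toFinset)]
    · rw [Finset.sum_congr rfl (g := fun _ => (((𝒯.frontier α).ncard : ℝ≥0)⁻¹ : ℝ≥0) * c)]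
      · rw [Finset.sum_const, nsmul_eq_mul, ← mul_assoc,
          ← Set.ncard_eq_toFinset_card _ hfin]
        refine mul_le_of_le_one_left' ?_
        have : ((𝒯.frontier α).ncard : ℝ≥0) * ((𝒯.frontier α).ncard : ℝ≥0)⁻¹ ≤ 1 :=
          mul_inv_le_one
        exact_mod_cast this
      · intro x hx
        rw [Set.indicator_of_mem]
        simpa using hx
    · intro b hb
      rw [Set.indicator_of_notMem]
      simpa using hb
  · have : (𝒯.frontier α).ncard = 0 := Set.Infinite.ncard hfin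
    simp [this]

theorem tsum_stepProb_le_one (ρ : TileType Λ → ℝ≥0) (α : Assembly Λ) :
    ∑' β, 𝒯.stepProb ρ α β ≤ 1 := by
  classical
  have h := 𝒯.tsum_stepProb_mul ρ α (fun _ => 1)
  simp only [mul_one] at h
  rw [h]
  refine le_trans (ENNReal.tsum_le_tsum fun p => ?_) (𝒯.tsum_frontier α 1)
  by_cases hp : p ∈ 𝒯.frontier α
  · rw [Set.indicator_of_mem hp, mul_one]
    have := 𝒯.sum_attachProb_le ρ α p
    exact_mod_cast this
  · rw [Set.indicator_of_notMem hp]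
    simp [𝒯.attachProb_off hp]

theorem step_close {ρ ρ' : TileType Λ → ℝ≥0} {η : ℝ≥0} (h : 𝒯.Close η ρ ρ')
    (f : Assembly Λ → ℝ≥0∞) (hf : ∀ a, f a ≤ 1) (α : Assembly Λ) :
    ∑' β, 𝒯.stepProb ρ α β * f β ≤
      ∑' β, 𝒯.stepProb ρ' α β * f β + 𝒯.tiles.card * η := by
  classical
  rw [tsum_stepProb_mul, tsum_stepProb_mul]
  refine le_trans ?_ (add_le_add_right (𝒯.tsum_frontier α (𝒯.tiles.card * η)) _)
  rw [← ENNReal.tsum_add]
  refine ENNReal.tsum_le_tsum fun p => ?_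
  by_cases hp : p ∈ 𝒯.frontier α
  · rw [Set.indicator_of_mem hp]
    calc ∑ t ∈ 𝒯.tiles, (𝒯.attachProb ρ α p t : ℝ≥0∞) * f (α.place p t)
        ≤ ∑ t ∈ 𝒯.tiles, ((𝒯.attachProb ρ' α p t : ℝ≥0∞) * f (α.place p t) +
            (((𝒯.frontier α).ncard : ℝ≥0)⁻¹ : ℝ≥0) * η) := by
          refine Finset.sum_le_sum fun t _ => ?_
          have h1 := 𝒯.attachProb_le h α p t
          have h2 : (𝒯.attachProb ρ α p t : ℝ≥0∞) ≤ 𝒯.attachProb ρ' α p t +
              (((𝒯.frontier α).ncard : ℝ≥0)⁻¹ : ℝ≥0) * η := by exact_mod_cast h1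
          calc (𝒯.attachProb ρ α p t : ℝ≥0∞) * f (α.place p t)
              ≤ (𝒯.attachProb ρ' α p t + (((𝒯.frontier α).ncard : ℝ≥0)⁻¹ : ℝ≥0) * η) *
                f (α.place p t) := by gcongr
            _ = 𝒯.attachProb ρ' α p t * f (α.place p t) +
                (((𝒯.frontier α).ncard : ℝ≥0)⁻¹ : ℝ≥0) * η * f (α.place p t) := by
                rw [add_mul]
            _ ≤ _ := add_le_add_right (mul_le_of_le_one_right' (hf _)) _
      _ = _ := by
          rw [Finset.sum_add_distrib, Finset.sum_const, nsmul_eq_mul]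
          congr 1
          ring
  · rw [Set.indicator_of_notMem hp]
    simp [𝒯.attachProb_off hp]

/-- The indicator function of an event. -/
noncomputable def ind (P : 𝒯.TerminalAssembly → Prop) (α : Assembly Λ) : ℝ≥0∞ :=
  open Classical in
  if h : 𝒯.Producible α ∧ 𝒯.frontier α = ∅ then (if P ⟨α, h⟩ then 1 else 0) else 0

theorem ind_le_one (P : 𝒯.TerminalAssembly → Prop) (α : Assembly Λ) : 𝒯.ind P α ≤ 1 := by
  unfold ind
  split_ifs <;> simp

theorem stepProb_terminal (ρ : TileType Λ → ℝ≥0) (α : Assembly Λ) (h : 𝒯.frontier α = ∅)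
    (β : Assembly Λ) : 𝒯.stepProb ρ α β = 0 := by
  classical
  unfold stepProb
  have : ∀ p t, 𝒯.attachProb ρ α p t = 0 := fun p t => 𝒯.attachProb_off (by simp [h]) t
  simp [this]

theorem ind_ne_zero {P : 𝒯.TerminalAssembly → Prop} {α : Assembly Λ} (h : 𝒯.ind P α ≠ 0) :
    𝒯.frontier α = ∅ := by
  unfold ind at h
  split_ifs at h with h1 h2
  · exact h1.2
  · exact absurd rfl h
  · exact absurd rfl h

theorem prob_eq (ρ : TileType Λ → ℝ≥0) (α : Assembly Λ) :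
    𝒯.prob ρ α = ∑' k : ℕ, reach (𝒯.stepProb ρ) 𝒯.seed k α := rfl

theorem Pr_eq (ρ : TileType Λ → ℝ≥0) (P : 𝒯.TerminalAssembly → Prop) :
    𝒯.Pr ρ P = ∑' k : ℕ, ∑' α, reach (𝒯.stepProb ρ) 𝒯.seed k α * 𝒯.ind P α := by
  classical
  rw [ENNReal.tsum_comm]
  unfold Pr
  have h1 : ∀ α : 𝒯.TerminalAssembly, (if P α then 𝒯.prob ρ α.1 else 0) =
      ∑' k : ℕ, reach (𝒯.stepProb ρ) 𝒯.seed k α.1 * 𝒯.ind P α.1 := by
    intro α
    have h2 : 𝒯.ind P α.1 = if P α then 1 else 0 := by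
      unfold ind
      rw [dif_pos α.2]
    rw [h2, prob_eq, ENNReal.tsum_mul_right]
    split_ifs <;> simp
  simp_rw [h1]
  exact tsum_subtype_eq_of_support_subset
    (f := fun α => ∑' k : ℕ, reach (𝒯.stepProb ρ) 𝒯.seed k α * 𝒯.ind P α)
    (s := {α : Assembly Λ | 𝒯.Producible α ∧ 𝒯.frontier α = ∅}) (by
      intro α hα
      by_contra hcon
      refine hα ?_
      have hcon' : ¬ (𝒯.Producible α ∧ 𝒯.frontier α = ∅) := hcon
      have : 𝒯.ind P α = 0 := by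
        unfold ind
        rw [dif_neg hcon']
      simp [this])

/-- The invariant of trajectories. -/
theorem stepProb_ne_zero {ρ : TileType Λ → ℝ≥0} {α β : Assembly Λ}
    (h : 𝒯.stepProb ρ α β ≠ 0) : ∃ p t, 𝒯.Attachable α p t ∧ β = α.place p t := by
  classical
  unfold stepProb at h
  rw [Ne, ENNReal.tsum_eq_zero] at h
  push Not at h
  obtain ⟨p, hp⟩ := h
  obtain ⟨t, ht, ht'⟩ := Finset.exists_ne_zero_of_sum_ne_zero hp
  refine ⟨p, t, ?_, ?_⟩
  · by_contra hcon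
    refine ht' ?_
    simp [attachProb, hcon]
  · by_contra hcon
    refine ht' ?_
    simp [hcon]

theorem dom_place {α : Assembly Λ} {p : ℤ × ℤ} {t : TileType Λ} :
    (α.place p t).dom = insert p α.dom := by
  ext q
  by_cases h : q = p
  · subst h
    simp [Assembly.dom, Assembly.place]
  · simp [Assembly.dom, Assembly.place, h]

theorem reach_ncard {ρ : TileType Λ → ℝ≥0} {k : ℕ} {α : Assembly Λ}
    (h : reach (𝒯.stepProb ρ) 𝒯.seed k α ≠ 0) : α.dom.Finite ∧ α.dom.ncard = k + 1 := by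
  refine reach_inv (𝒯.stepProb ρ) 𝒯.seed (fun k α => α.dom.Finite ∧ α.dom.ncard = k + 1) ?_ ?_
    k α h
  · have : 𝒯.seed.dom = {𝒯.seedPos} := by
      unfold seed
      rw [dom_place]
      simp [Assembly.dom]
    rw [this]
    simp
  · rintro k α β ⟨hfin, hcard⟩ hstep
    obtain ⟨p, t, hpt, rfl⟩ := 𝒯.stepProb_ne_zero hstep
    rw [dom_place]
    have hp : p ∉ α.dom := by simp [Assembly.dom, hpt.2.1]
    exact ⟨hfin.insert p, by rw [Set.ncard_insert_of_notMem hp hfin, hcard]⟩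

theorem val_le_Pr (ρ : TileType Λ → ℝ≥0) (P : 𝒯.TerminalAssembly → Prop) (j : ℕ) :
    val (𝒯.stepProb ρ) (𝒯.ind P) j 𝒯.seed ≤ 𝒯.Pr ρ P := by
  rw [← sum_reach_eq_val, Pr_eq]
  exact ENNReal.sum_le_tsum _

theorem Pr_le_val (ρ : TileType Λ → ℝ≥0) (P : 𝒯.TerminalAssembly → Prop) (N : ℕ)
    (hP : ∀ α, P α → α.1.dom.ncard ≤ N) :
    𝒯.Pr ρ P ≤ val (𝒯.stepProb ρ) (𝒯.ind P) N 𝒯.seed := by
  classical
  rw [← sum_reach_eq_val, Pr_eq, tsum_eq_sum]
  intro k hk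
  rw [Finset.mem_range, not_lt] at hk
  rw [ENNReal.tsum_eq_zero]
  intro α
  by_contra hne
  have h1 := left_ne_zero_of_mul hne
  have h2 := right_ne_zero_of_mul hne
  have h3 := (𝒯.reach_ncard h1).2
  unfold ind at h2
  split_ifs at h2 with h4 h5
  · have := hP _ h5
    simp only at this
    omega
  · exact h2 rfl
  · exact h2 rfl

theorem Pr_le_one (ρ : TileType Λ → ℝ≥0) (P : 𝒯.TerminalAssembly → Prop) : 𝒯.Pr ρ P ≤ 1 := by
  rw [Pr_eq, ENNReal.tsum_eq_iSup_nat]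
  refine iSup_le fun j => ?_
  calc ∑ k ∈ Finset.range j, ∑' α, reach (𝒯.stepProb ρ) 𝒯.seed k α * 𝒯.ind P α
      ≤ ∑ k ∈ Finset.range (j + 1), ∑' α, reach (𝒯.stepProb ρ) 𝒯.seed k α * 𝒯.ind P α := by
        refine Finset.sum_le_sum_of_subset ?_
        exact Finset.range_mono (Nat.le_succ j)
    _ = val (𝒯.stepProb ρ) (𝒯.ind P) j 𝒯.seed := sum_reach_eq_val _ _ _ _
    _ ≤ 1 := val_le_one _ _ (𝒯.ind_le_one P) (𝒯.tsum_stepProb_le_one ρ)
        (fun a ha b => 𝒯.stepProb_terminal ρ a (𝒯.ind_ne_zero ha) b) j _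

/-- Comparison of the probabilities of an event under close concentration assignments. -/
theorem Pr_le_Pr_add {ρ ρ' : TileType Λ → ℝ≥0} {η : ℝ≥0} (h : 𝒯.Close η ρ ρ')
    (P : 𝒯.TerminalAssembly → Prop) (N : ℕ) (hP : ∀ α, P α → α.1.dom.ncard ≤ N) :
    𝒯.Pr ρ P ≤ 𝒯.Pr ρ' P + N * (𝒯.tiles.card * η) := by
  refine (𝒯.Pr_le_val ρ P N hP).trans ?_
  refine (val_le_val_add (𝒯.stepProb ρ) (𝒯.stepProb ρ') (𝒯.ind P) (𝒯.ind_le_one P)
    (𝒯.tsum_stepProb_le_one ρ) (𝒯.tsum_stepProb_le_one ρ')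
    (fun a ha b => 𝒯.stepProb_terminal ρ' a (𝒯.ind_ne_zero ha) b)
    (𝒯.tiles.card * η) (fun f hf a => 𝒯.step_close h f hf a) N 𝒯.seed).trans ?_
  gcongr
  exact 𝒯.val_le_Pr ρ' P N

theorem Pr_mono (ρ : TileType Λ → ℝ≥0) {P Q : 𝒯.TerminalAssembly → Prop}
    (h : ∀ α, P α → Q α) : 𝒯.Pr ρ P ≤ 𝒯.Pr ρ Q := by
  classical
  unfold Pr
  refine ENNReal.tsum_le_tsum fun α => ?_
  by_cases hp : P α
  · simp [hp, h α hp]
  · simp [hp]

/-- Inclusion-exclusion. -/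
theorem Pr_add_le (ρ : TileType Λ → ℝ≥0) (P Q : 𝒯.TerminalAssembly → Prop) :
    𝒯.Pr ρ P + 𝒯.Pr ρ Q ≤ 𝒯.Pr ρ (fun α => P α ∧ Q α) + 1 := by
  classical
  calc 𝒯.Pr ρ P + 𝒯.Pr ρ Q
      = 𝒯.Pr ρ (fun α => P α ∧ Q α) + 𝒯.Pr ρ (fun α => P α ∨ Q α) := by
        unfold Pr
        rw [← ENNReal.tsum_add, ← ENNReal.tsum_add]
        refine tsum_congr fun α => ?_
        by_cases hp : P α <;> by_cases hq : Q α <;> simp [hp, hq]
    _ ≤ _ := by
        gcongr
        exact 𝒯.Pr_le_one ρ _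

/-- Disjoint events. -/
theorem sum_Pr_le_one (ρ : TileType Λ → ℝ≥0) {ι : Type} (G : Finset ι)
    (P : ι → 𝒯.TerminalAssembly → Prop) (hdisj : ∀ i ∈ G, ∀ j ∈ G, ∀ α, P i α → P j α → i = j) :
    ∑ i ∈ G, 𝒯.Pr ρ (P i) ≤ 1 := by
  classical
  refine le_trans ?_ (𝒯.Pr_le_one ρ (fun _ => True))
  unfold Pr
  rw [← Summable.tsum_finsetSum fun _ _ => ENNReal.summable]
  refine ENNReal.tsum_le_tsum fun α => ?_
  by_cases hex : ∃ i ∈ G, P i α
  · obtain ⟨i, hi, hPi⟩ := hex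
    rw [Finset.sum_eq_single i]
    · simp [hPi]
    · intro j hj hji
      rw [if_neg]
      intro hPj
      exact hji (hdisj j hj i hi α hPj hPi)
    · intro h
      exact absurd hi h
  · push Not at hex
    rw [Finset.sum_eq_zero]
    · simp
    · intro i hi
      rw [if_neg (hex i hi)]

end TileSystem

end Pool.Agent.Helper84.Tiles
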